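import Mathlib

set_option autoImplicit false

open Cardinal Set

namespace Pool.Agent.Helper292.SP

/-! ### The forcing language

A sentence of the forcing language of a preordered set `P` of conditions is represented by the set of the conditions
which force it. A name for a relation on ground model sets is a map to sets of conditions. -/

universe u v w

section Language

variable {P : Type u} [Preorder P]

/-- `p` forces `not φ` iff no `q ≤ p` forces `φ`. -/
def fnot (φ : Set P) : Set P := {p | ∀ q ≤ p, q ∉ φ}

/-- `p` forces `φ and ψ` iff it forces both. -/
def fand (φ ψ : Set P) : Set P := {p | p ∈ φ ∧ p ∈ ψ}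

/-- `p` forces `for all i, φ i` iff it forces every `φ i`. -/
def fall {ι : Sort v} (φ : ι → Set P) : Set P := {p | ∀ i, p ∈ φ i}

/-- `φ or ψ` is `not (not φ and not ψ)`. -/
def for' (φ ψ : Set P) : Set P := fnot (fand (fnot φ) (fnot ψ))

/-- `φ implies ψ` is `not (φ and not ψ)`. -/
def fimp (φ ψ : Set P) : Set P := fnot (fand φ (fnot ψ))

/-- `φ if and only if ψ`. -/
def fiff (φ ψ : Set P) : Set P := fand (fimp φ ψ) (fimp ψ φ)

/-- `there is i with φ i` is `not for all i, not φ i`. -/
def fex {ι : Sort v} (φ : ι → Set P) : Set P := fnot (fall fun i => fnot (φ i))

/-- An absolute statement about ground model objects. -/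
def fground (h : Prop) : Set P := {_p | h}

/-- `p` forces that the generic filter meets the set `N` of conditions:
the set of `r` lying below some member of `N` is dense below `p`. -/
def meets (N : Set P) : Set P := {p | ∀ q ≤ p, ∃ r ≤ q, ∃ s ∈ N, r ≤ s}

/-- The relation named by `R` is a function from `X` to `Y`. -/
def IsFun {X : Type v} {Y : Type w} (R : X → Y → Set P) : Set P :=
  fand (fall fun x => fex fun y => meets (R x y))
    (fall fun x => fall fun y => fall fun y' =>
      fimp (fand (meets (R x y)) (meets (R x y'))) (fground (y = y')))

/-- Every element of the subset of `Y` named by `H` is a value of the function named by `R`. -/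
def Covers {X : Type v} {Y : Type w} (R : X → Y → Set P) (H : Y → Set P) : Set P :=
  fall fun y => fimp (meets (H y)) (fex fun x => meets (R x y))

end Language

section Statements

variable (P : Type) [Preorder P]

/-- No function defined on a proper initial segment of `A` has all elements of `H ⊆ A` among its values. -/
def Full {P : Type} [Preorder P] {A : Type} [LinearOrder A] (H : A → Set P) : Set P :=
  fall fun a : A => fnot (fex fun F : Iio a → A → Set P => fand (IsFun F) (Covers F H))

/-- In the extension (the order type of) `A` is a cardinal. -/
def IsCard (A : Type) [LinearOrder A] : Set P := Full fun _ : A => (Set.univ : Set P)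

/-- In the extension no function from a proper initial segment of `A` into `A` is unbounded. -/
def IsReg (A : Type) [LinearOrder A] : Set P :=
  fall fun a : A => fnot (fex fun F : Iio a → A → Set P => fand (IsFun F)
    (fall fun y : A => fex fun x : Iio a => fex fun z : A => fand (meets (F x z)) (fground (y ≤ z))))

/-- In the extension, for the colouring of the pairs `a < b` of `A` with the colours `1` (if the pair is in `c`) and `0`
(otherwise), there is a set `H ⊆ A` of the cardinality of `A` all of whose pairs have the colour `0`. -/
def Hom0 {P : Type} [Preorder P] {A : Type} [LinearOrder A] (c : A → A → Set P) : Set P :=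
  fex fun H : A → Set P => fand (Full H) (fall fun a : A => fall fun b : A =>
    fimp (fand (fground (a < b)) (fand (meets (H a)) (meets (H b)))) (fnot (meets (c a b))))

/-- In the extension there is a one-to-one function from `C` to `A` such that all pairs of its values have the colour
`1`. -/
def Hom1 {P : Type} [Preorder P] {A : Type} [LinearOrder A] (c : A → A → Set P) (C : Type) : Set P :=
  fex fun F : C → A → Set P => fand (IsFun F) (fall fun x : C => fall fun y : C => fall fun a : A => fall fun b : A =>
    fimp (fand (fground (x ≠ y)) (fand (meets (F x a)) (meets (F y b))))
      (fand (fground (a ≠ b)) (fimp (fground (a < b)) (meets (c a b)))))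

/-- In the extension `A → (A, C)²` for the cardinals `A` and `C`: every colouring of the pairs of `A` with two colours
has a homogeneous set of size `A` in the colour `0`, or one of size `C` in the colour `1`. -/
def Arrow (A : Type) [LinearOrder A] (C : Type) : Set P :=
  fall fun c : A → A → Set P => for' (Hom0 c) (Hom1 c C)

/-- In the extension `ρ ^ C < A` for every cardinal `ρ < A`: for every `a : A` there is `b : A` such that some family
indexed by the initial segment of `b` contains all functions from `C` to the initial segment of `a`. -/
def PowLT (A : Type) [LinearOrder A] (C : Type) : Set P :=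
  fall fun a : A => fex fun b : A => fex fun E : Iio b → C → Iio a → Set P =>
    fall fun F : C → Iio a → Set P => fimp (IsFun F) (fex fun i : Iio b => fall fun x : C => fall fun y : Iio a =>
      fiff (meets (F x y)) (meets (E i x y)))

end Statements

section StatementsT

variable (P : Type) [Preorder P]

/-- In the extension some subset of `A` of order type `C` has all its pairs of the colour `1`: there is a strictly
increasing function from `C` to `A` all pairs of whose values have the colour `1`. -/
def HomT {P : Type} [Preorder P] {A : Type} [LinearOrder A] (c : A → A → Set P) (C : Type) [LinearOrder C] : Set P :=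
  fex fun F : C → A → Set P => fand (IsFun F) (fall fun x : C => fall fun y : C => fall fun a : A => fall fun b : A =>
    fimp (fand (fground (x < y)) (fand (meets (F x a)) (meets (F y b))))
      (fand (fground (a < b)) (meets (c a b))))

/-- In the extension `A → (A, C)²` for the cardinal `A` and the order type `C`. -/
def ArrowT (A : Type) [LinearOrder A] (C : Type) [LinearOrder C] : Set P :=
  fall fun c : A → A → Set P => for' (Hom0 c) (HomT c C)

/-- The continuum hypothesis holds in the extension: some family of subsets of `ℕ` indexed by `ω₁` contains every
subset of `ℕ`. -/
def CHHolds : Set P :=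
  fex fun E : (ℵ₁ : Cardinal.{0}).ord.ToType → ℕ → Set P => fall fun x : ℕ → Set P =>
    fex fun a : (ℵ₁ : Cardinal.{0}).ord.ToType => fall fun n : ℕ => fiff (meets (x n)) (meets (E a n))

end StatementsT

end Pool.Agent.Helper292.SP
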