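import Mathlib
import Pool.Agent.Helper292.SP.Lang

set_option autoImplicit false

open Cardinal Set

namespace Pool.Agent.Helper292.SP

/-- The parameters of the forcing notion: a set `K` of vertices with a level map `lev` into a well-ordered set `M` of
order type `c⁺` (a regular cardinal), and cardinals `θ ≤ c` with `c ^ σ ≤ c` for `σ < θ`. -/
structure Par where
  K : Type
  M : Type
  [oM : LinearOrder M]
  [wM : WellFoundedLT M]
  lev : K → M
  θ : Cardinal.{0}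
  c : Cardinal.{0}
  hθ : ℵ₀ ≤ θ
  hθr : θ.IsRegular
  hθc : θ ≤ c
  hc : ∀ σ < θ, c ^ σ ≤ c
  hM : #M = Order.succ c
  hMs : ∀ i : M, #(Iio i) ≤ c
  hK : (2 : Cardinal.{0}) ^ c < #K
  hlev : ∀ i : M, #{a : K | lev a < i} < #K

attribute [instance] Par.oM Par.wM

variable {Q : Par}

/-- The big part of a condition: a set `Y` of at most `c` vertices, a height `dl`, for each `a ∈ Y` the values of a
rank function `ga a` below `dl`, and a promised lower bound `t a` for all later values. -/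
structure Big (Q : Par) where
  Y : Set Q.K
  dl : Q.M
  ga : Q.K → Q.M → Q.M
  t : Q.K → Q.M
  hY : #Y ≤ Q.c
  hlev : ∀ a ∈ Y, Q.lev a < dl

instance : Preorder (Big Q) where
  le s' s := s.Y ⊆ s'.Y ∧ s.dl ≤ s'.dl ∧ (∀ a ∈ s.Y, ∀ η < s.dl, s'.ga a η = s.ga a η) ∧
    (∀ a ∈ s.Y, ∀ η, s.dl ≤ η → η < s'.dl → s.t a ≤ s'.ga a η) ∧ (∀ a ∈ s.Y, s.t a ≤ s'.t a)
  le_refl s := ⟨subset_rfl, le_rfl, fun _ _ _ _ => rfl, fun _ _ η h h' => absurd h' (not_lt.2 h),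
    fun _ _ => le_rfl⟩
  le_trans s'' s' s := by
    rintro ⟨h1, h2, h3, h4, h5⟩ ⟨k1, k2, k3, k4, k5⟩
    refine ⟨k1.trans h1, k2.trans h2, fun a ha η hη => ?_, fun a ha η hη hη' => ?_, fun a ha => ?_⟩
    · rw [h3 a (k1 ha) η (hη.trans_le k2), k3 a ha η hη]
    · rcases lt_or_ge η s'.dl with h | h
      · rw [h3 a (k1 ha) η h]
        exact k4 a ha η hη h
      · exact (k5 a ha).trans (h4 a (k1 ha) η h hη')
    · exact (k5 a ha).trans (h5 a (k1 ha))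

/-- The small part of a condition: a graph (with edges directed upwards) on a set of fewer than `θ` vertices. -/
structure Sm (Q : Par) where
  X : Set Q.K
  G : Q.K → Q.K → Prop
  hX : #X < Q.θ
  hG : ∀ a b, G a b → a ∈ X ∧ b ∈ X ∧ Q.lev a < Q.lev b

instance : Preorder (Sm Q) where
  le x' x := x.X ⊆ x'.X ∧ ∀ a ∈ x.X, ∀ b ∈ x.X, (x'.G a b ↔ x.G a b)
  le_refl x := ⟨subset_rfl, fun _ _ _ _ => Iff.rfl⟩
  le_trans x'' x' x := by
    rintro ⟨h1, h2⟩ ⟨k1, k2⟩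
    exact ⟨k1.trans h1, fun a ha b hb => (h2 a (k1 ha) b (k1 hb)).trans (k2 a ha b hb)⟩

/-- The conditions: a big part, and a small part all of whose triangles `a < a' < b` satisfy
`ga a' (lev b) < ga a (lev b)`. -/
structure Cond (Q : Par) where
  s : Big Q
  x : Sm Q
  sub : x.X ⊆ s.Y
  tri : ∀ a a' b, x.G a a' → x.G a b → x.G a' b → s.ga a' (Q.lev b) < s.ga a (Q.lev b)

instance : Preorder (Cond Q) where
  le p q := p.s ≤ q.s ∧ p.x ≤ q.x
  le_refl p := ⟨le_rfl, le_rfl⟩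
  le_trans p q r h h' := ⟨h.1.trans h'.1, h.2.trans h'.2⟩

/-- Strengthen the big part only. -/
def Cond.lower (p : Cond Q) (s : Big Q) (h : s ≤ p.s) : Cond Q where
  s := s
  x := p.x
  sub := p.sub.trans h.1
  tri a a' b h1 h2 h3 := by
    have hb := p.s.hlev b (p.sub (p.x.hG _ _ h2).2.1)
    rw [h.2.2.1 a' (p.sub (p.x.hG _ _ h1).2.1) _ hb, h.2.2.1 a (p.sub (p.x.hG _ _ h1).1) _ hb]
    exact p.tri a a' b h1 h2 h3

theorem big_lb_inf : ℵ₀ ≤ Q.c := Q.hθ.trans Q.hθc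

theorem big_lb_union {ι : Type} (hι : #ι ≤ Q.c) {α : Type} (f : ι → Set α)
    (hf : ∀ i, #(f i) ≤ Q.c) : #(⋃ i, f i) ≤ Q.c := by
  calc #(⋃ i, f i) ≤ Cardinal.sum fun i => #(f i) := Cardinal.mk_iUnion_le_sum_mk
    _ ≤ Cardinal.sum fun _ : ι => Q.c := Cardinal.sum_le_sum _ _ hf
    _ = #ι * Q.c := by rw [Cardinal.sum_const']
    _ ≤ Q.c * Q.c := mul_le_mul' hι le_rfl
    _ = Q.c := Cardinal.mul_eq_self big_lb_inf

theorem big_lb_bound {ι : Type} (hι : #ι ≤ Q.c) (f : ι → Q.M) : ∃ b : Q.M, ∀ i, f i < b := by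
  by_contra hcon
  push Not at hcon
  have h1 : (univ : Set Q.M) = ⋃ i, Iic (f i) := by
    ext b
    simp only [mem_univ, mem_iUnion, mem_Iic, true_iff]
    exact hcon b
  have h2 : ∀ i, #(Iic (f i)) ≤ Q.c := by
    intro i
    have h3 : Iic (f i) = insert (f i) (Iio (f i)) := by
      ext x
      rw [mem_insert_iff, mem_Iic, mem_Iio, le_iff_eq_or_lt]
    rw [h3]
    refine (Cardinal.mk_insert_le).trans ?_
    calc #(Iio (f i)) + 1 ≤ Q.c + 1 := add_le_add (Q.hMs _) le_rfl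
      _ = Q.c := Cardinal.add_one_eq big_lb_inf
  have h4 := big_lb_union hι (fun i => Iic (f i)) h2
  rw [← h1, Cardinal.mk_univ, Q.hM] at h4
  exact absurd h4 (not_le.mpr (Order.lt_succ Q.c))

/-- Every decreasing family of at most `c` big parts has a lower bound. -/
theorem big_lb {ι : Type} [LinearOrder ι] [Nonempty ι] (hι : #ι ≤ Q.c) (s : ι → Big Q)
    (hs : ∀ i j, i ≤ j → s j ≤ s i) : ∃ s' : Big Q, ∀ i, s' ≤ s i := by
  classical
  obtain ⟨dl, hdl⟩ := big_lb_bound hι (fun i => (s i).dl)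
  have ht : ∀ a : Q.K, ∃ b : Q.M, ∀ i, (s i).t a < b := fun a =>
    big_lb_bound hι (fun i => (s i).t a)
  choose tt htt using ht
  set ga : Q.K → Q.M → Q.M := fun a η =>
    if h : ∃ i, a ∈ (s i).Y ∧ η < (s i).dl then (s h.choose).ga a η else tt a with hga
  refine ⟨⟨⋃ i, (s i).Y, dl, ga, tt, big_lb_union hι _ (fun i => (s i).hY), ?_⟩, ?_⟩
  · intro a ha
    obtain ⟨i, hi⟩ := mem_iUnion.mp ha
    exact ((s i).hlev a hi).trans (hdl i)
  · intro i
    refine ⟨subset_iUnion (fun i => (s i).Y) i, (hdl i).le, ?_, ?_, ?_⟩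
    · intro a ha η hη
      have h : ∃ i, a ∈ (s i).Y ∧ η < (s i).dl := ⟨i, ha, hη⟩
      show ga a η = (s i).ga a η
      rw [hga]
      simp only [dif_pos h]
      have hc := h.choose_spec
      rcases le_total i h.choose with hij | hij
      · exact (hs i h.choose hij).2.2.1 a ha η hη
      · exact ((hs h.choose i hij).2.2.1 a hc.1 η hc.2).symm
    · intro a ha η hη _
      show (s i).t a ≤ ga a η
      rw [hga]
      by_cases h : ∃ i, a ∈ (s i).Y ∧ η < (s i).dl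
      · simp only [dif_pos h]
        have hc := h.choose_spec
        rcases le_total i h.choose with hij | hij
        · exact (hs i h.choose hij).2.2.2.1 a ha η hη hc.2
        · exfalso
          have h5 : (s h.choose).dl ≤ (s i).dl := (hs h.choose i hij).2.1
          exact absurd (hη.trans_lt hc.2) (not_lt.mpr h5)
      · simp only [dif_neg h]
        exact (htt a i).le
    · intro a _
      exact (htt a i).le

/-- Every decreasing family of fewer than `θ` conditions has a lower bound. -/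
theorem cond_lb {ι : Type} [LinearOrder ι] [Nonempty ι] (hι : #ι < Q.θ) (p : ι → Cond Q)
    (hp : ∀ i j, i ≤ j → p j ≤ p i) : ∃ q : Cond Q, ∀ i, q ≤ p i := by
  obtain ⟨s', hs'⟩ := big_lb (hι.le.trans Q.hθc) (fun i => (p i).s) (fun i j h => (hp i j h).1)
  have hup : ∀ i j a b, i ≤ j → (p i).x.G a b → (p j).x.G a b := by
    intro i j a b hij h
    obtain ⟨ha, hb, _⟩ := (p i).x.hG a b h
    exact ((hp i j hij).2.2 a ha b hb).2 h
  refine ⟨⟨s', ⟨⋃ i, (p i).x.X, fun a b => ∃ i, (p i).x.G a b, ?_, ?_⟩, ?_, ?_⟩, ?_⟩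
  · exact (Cardinal.card_iUnion_lt_iff_forall_of_isRegular Q.hθr hι).2 (fun i => (p i).x.hX)
  · rintro a b ⟨i, h⟩
    obtain ⟨ha, hb, hl⟩ := (p i).x.hG a b h
    exact ⟨mem_iUnion.2 ⟨i, ha⟩, mem_iUnion.2 ⟨i, hb⟩, hl⟩
  · intro a ha
    obtain ⟨i, hi⟩ := mem_iUnion.1 ha
    exact (hs' i).1 ((p i).sub hi)
  · rintro a a' b ⟨i, hi⟩ ⟨j, hj⟩ ⟨k, hk⟩
    exact ((p (max i (max j k))).lower s' (hs' _)).tri a a' b
      (hup _ _ _ _ (le_max_left _ _) hi)
      (hup _ _ _ _ ((le_max_left _ _).trans (le_max_right _ _)) hj)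
      (hup _ _ _ _ ((le_max_right _ _).trans (le_max_right _ _)) hk)
  · intro i
    refine ⟨hs' i, subset_iUnion (fun i => (p i).x.X) i, ?_⟩
    intro a ha b hb
    constructor
    · rintro ⟨j, hj⟩
      have h1 := hup j (max i j) a b (le_max_right _ _) hj
      exact ((hp i (max i j) (le_max_left _ _)).2.2 a ha b hb).1 h1
    · intro h
      exact ⟨i, h⟩

/-- Construction of a decreasing chain of length `M` together with data. -/
theorem chain_rec {S D M : Type} [Preorder S] [LinearOrder M] [WellFoundedLT M] (s0 : S)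
    (lb : ∀ (i : M) (s : Iio i → S), (∀ j k, j ≤ k → s k ≤ s j) → (∀ j, s j ≤ s0) →
      ∃ s' ≤ s0, ∀ j, s' ≤ s j)
    (Φ : (i : M) → (Iio i → D) → S → S → D → Prop)
    (step : ∀ (i : M) (h : Iio i → D) (s : S), s ≤ s0 → ∃ s' ≤ s, ∃ d, Φ i h s s' d) :
    ∃ (s s' : M → S) (d : M → D), (∀ i, s i ≤ s0) ∧ (∀ i, s' i ≤ s i) ∧
      (∀ i j, i < j → s j ≤ s' i) ∧ ∀ i, Φ i (fun j => d j.1) (s i) (s' i) (d i) := by
  have hR : ∀ (i : M) (h : (j : M) → j < i → S × S × D), ∃ t : S × S × D,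
      ((∀ j k : Iio i, j ≤ k → (h k.1 k.2).2.1 ≤ (h j.1 j.2).2.1) ∧
        (∀ j : Iio i, (h j.1 j.2).2.1 ≤ s0)) →
      (t.1 ≤ s0 ∧ (∀ (j : M) (hj : j < i), t.1 ≤ (h j hj).2.1) ∧ t.2.1 ≤ t.1 ∧
        Φ i (fun j => (h j.1 j.2).2.2) t.1 t.2.1 t.2.2) := by
    intro i h
    by_cases hg : (∀ j k : Iio i, j ≤ k → (h k.1 k.2).2.1 ≤ (h j.1 j.2).2.1) ∧
        (∀ j : Iio i, (h j.1 j.2).2.1 ≤ s0)
    · obtain ⟨s, hs0, hs⟩ := lb i (fun j => (h j.1 j.2).2.1) hg.1 hg.2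
      obtain ⟨s', hs', d, hd⟩ := step i (fun j => (h j.1 j.2).2.2) s hs0
      exact ⟨(s, s', d), fun _ => ⟨hs0, fun j hj => hs ⟨j, hj⟩, hs', hd⟩⟩
    · obtain ⟨s', hs', d, hd⟩ := step i (fun j => (h j.1 j.2).2.2) s0 le_rfl
      exact ⟨(s0, s', d), fun h' => absurd h' hg⟩
  choose F hF using hR
  have wf : WellFounded ((· < ·) : M → M → Prop) := wellFounded_lt
  obtain ⟨G, hG⟩ : ∃ G : M → S × S × D, ∀ i, G i = F i (fun j _ => G j) :=
    ⟨wf.fix F, fun i => wf.fix_eq F i⟩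
  have key : ∀ i : M, (G i).1 ≤ s0 ∧ (∀ j : M, j < i → (G i).1 ≤ (G j).2.1) ∧
      (G i).2.1 ≤ (G i).1 ∧ Φ i (fun j => (G j.1).2.2) (G i).1 (G i).2.1 (G i).2.2 := by
    intro i
    induction i using wf.induction with
    | _ i ih =>
      have h := hF i (fun j _ => G j) ⟨?_, ?_⟩
      · rw [← hG i] at h
        exact h
      · intro j k hjk
        rcases hjk.eq_or_lt with hjk | hjk
        · rw [hjk]
        · have h1 := ih k.1 k.2
          exact h1.2.2.1.trans (h1.2.1 j.1 hjk)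
      · intro j
        have h1 := ih j.1 j.2
        exact h1.2.2.1.trans h1.1
  exact ⟨fun i => (G i).1, fun i => (G i).2.1, fun i => (G i).2.2, fun i => (key i).1,
    fun i => (key i).2.2.1, fun i j hij => (key j).2.1 i hij, fun i => (key i).2.2.2⟩

theorem ext_hcinf (Q : Par) : ℵ₀ ≤ Q.c := Q.hθ.trans Q.hθc

theorem ext_nomax (i : Q.M) : ∃ j, i < j := by
  by_contra hcon
  push Not at hcon
  have h1 : (Set.univ : Set Q.M) = insert i (Iio i) := by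
    ext j
    simp only [Set.mem_univ, Set.mem_insert_iff, Set.mem_Iio, true_iff]
    exact (hcon j).eq_or_lt
  have h2 : #Q.M ≤ Q.c := by
    rw [← Cardinal.mk_univ, h1]
    refine Cardinal.mk_insert_le.trans ?_
    calc #(Iio i) + 1 ≤ Q.c + 1 := by gcongr; exact Q.hMs i
      _ = Q.c := Cardinal.add_one_eq (ext_hcinf Q)
  rw [Q.hM] at h2
  exact absurd h2 (not_le.2 (Order.lt_succ Q.c))

open Classical in
/-- extension of a big part -/
noncomputable def extBig (s : Big Q) (Z : Set Q.K) (hZ : #Z ≤ Q.c) (d : Q.M) (hd : s.dl ≤ d)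
    (hl : ∀ a ∈ Z, Q.lev a < d) : Big Q where
  Y := s.Y ∪ Z
  dl := d
  ga := fun b η => if b ∈ s.Y then (if η < s.dl then s.ga b η else s.t b) else d
  t := s.t
  hY := by
    refine (Cardinal.mk_union_le _ _).trans ?_
    calc #s.Y + #Z ≤ Q.c + Q.c := add_le_add s.hY hZ
      _ = Q.c := Cardinal.add_eq_self (ext_hcinf Q)
  hlev := by
    rintro a (ha | ha)
    · exact (s.hlev a ha).trans_le hd
    · exact hl a ha

theorem extBig_le (s : Big Q) (Z : Set Q.K) (hZ : #Z ≤ Q.c) (d : Q.M) (hd : s.dl ≤ d)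
    (hl : ∀ a ∈ Z, Q.lev a < d) : extBig s Z hZ d hd hl ≤ s := by
  classical
  refine ⟨Set.subset_union_left, hd, fun a ha η hη => ?_, fun a ha η hη hη' => ?_,
    fun a ha => le_rfl⟩
  · change (if a ∈ s.Y then (if η < s.dl then s.ga a η else s.t a) else d) = s.ga a η
    rw [if_pos ha, if_pos hη]
  · change s.t a ≤ (if a ∈ s.Y then (if η < s.dl then s.ga a η else s.t a) else d)
    rw [if_pos ha, if_neg (not_lt.2 hη)]

/-- Every condition can be extended so that its graph contains a given vertex. -/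
theorem ext_vertex (p : Cond Q) (a : Q.K) : ∃ q ≤ p, a ∈ q.x.X := by
  obtain ⟨j, hj⟩ := ext_nomax (max p.s.dl (Q.lev a))
  have hZ : #({a} : Set Q.K) ≤ Q.c := by
    rw [Cardinal.mk_singleton]
    exact Cardinal.one_le_aleph0.trans (ext_hcinf Q)
  have hl : ∀ b ∈ ({a} : Set Q.K), Q.lev b < j := by
    rintro b rfl
    exact (le_max_right _ _).trans_lt hj
  have hd : p.s.dl ≤ j := ((le_max_left _ _).trans_lt hj).le
  have hle := extBig_le p.s {a} hZ j hd hl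
  have hX : #(insert a p.x.X : Set Q.K) < Q.θ := by
    refine Cardinal.mk_insert_le.trans_lt ?_
    exact Cardinal.add_lt_of_lt Q.hθ p.x.hX (Cardinal.one_lt_aleph0.trans_le Q.hθ)
  let x' : Sm Q := { X := insert a p.x.X
                     G := p.x.G
                     hX := hX
                     hG := fun b b' h => ⟨Or.inr (p.x.hG b b' h).1, Or.inr (p.x.hG b b' h).2.1,
                       (p.x.hG b b' h).2.2⟩ }
  refine ⟨{ s := extBig p.s {a} hZ j hd hl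
            x := x'
            sub := ?_
            tri := ?_ }, ⟨hle, ?_⟩, Or.inl rfl⟩
  · rintro b (hb | hb)
    · exact Or.inr hb
    · exact Or.inl (p.sub hb)
  · intro b b' b'' h1 h2 h3
    have hb := p.s.hlev b'' (p.sub (p.x.hG _ _ h2).2.1)
    rw [hle.2.2.1 b' (p.sub (p.x.hG _ _ h1).2.1) _ hb, hle.2.2.1 b (p.sub (p.x.hG _ _ h1).1) _ hb]
    exact p.tri b b' b'' h1 h2 h3
  · exact ⟨Set.subset_insert _ _, fun b _ b' _ => Iff.rfl⟩

/-- Every big part can be extended to a larger height. -/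
theorem ext_level (s : Big Q) (i : Q.M) : ∃ s' ≤ s, i < s'.dl := by
  obtain ⟨j, hj⟩ := ext_nomax (max s.dl i)
  have hZ : #(∅ : Set Q.K) ≤ Q.c := by
    rw [Cardinal.mk_eq_zero]
    exact zero_le
  exact ⟨extBig s ∅ hZ j ((le_max_left _ _).trans_lt hj).le (fun a ha => absurd ha (by simp)),
    extBig_le _ _ _ _ _ _, (le_max_right _ _).trans_lt hj⟩

/-- The promised lower bounds can be raised. -/
theorem ext_raise (s : Big Q) (m : Q.M) : ∃ s' ≤ s, s'.Y = s.Y ∧ s'.dl = s.dl ∧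
    (∀ a ∈ s.Y, ∀ η < s.dl, s'.ga a η = s.ga a η) ∧ ∀ a ∈ s.Y, m < s'.t a := by
  obtain ⟨j, hj⟩ := ext_nomax m
  refine ⟨{ Y := s.Y
            dl := s.dl
            ga := s.ga
            t := fun a => max (s.t a) j
            hY := s.hY
            hlev := s.hlev }, ⟨subset_rfl, le_rfl, fun _ _ _ _ => rfl,
    fun _ _ η h h' => absurd h' (not_lt.2 h), fun a _ => le_max_left _ _⟩, rfl, rfl,
    fun _ _ _ _ => rfl, fun a _ => hj.trans_le (le_max_right _ _)⟩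

namespace DS

universe u

/-- unions of few small sets are small -/
theorem small_iUnion {ι α : Type u} {c : Cardinal.{u}} (hc : ℵ₀ ≤ c) (hι : #ι ≤ c)
    (f : ι → Set α) (hf : ∀ i, #(f i) ≤ c) : #(⋃ i, f i) ≤ c := by
  refine (Cardinal.mk_iUnion_le f).trans ?_
  calc #ι * (⨆ i, #(f i)) ≤ c * c := mul_le_mul' hι (ciSup_le' hf)
    _ = c := Cardinal.mul_eq_self hc

theorem small_biUnion {ι α : Type u} {c : Cardinal.{u}} (hc : ℵ₀ ≤ c) (s : Set ι) (hs : #s ≤ c)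
    (f : ι → Set α) (hf : ∀ i ∈ s, #(f i) ≤ c) : #(⋃ i ∈ s, f i) ≤ c := by
  rw [biUnion_eq_iUnion]
  exact small_iUnion hc hs _ (fun i => hf i.1 i.2)

theorem small_union {α : Type u} {c : Cardinal.{u}} (hc : ℵ₀ ≤ c) {s t : Set α}
    (hs : #s ≤ c) (ht : #t ≤ c) : #(s ∪ t : Set α) ≤ c := by
  refine (Cardinal.mk_union_le s t).trans ?_
  calc #s + #t ≤ c + c := add_le_add hs ht
    _ = c := Cardinal.add_eq_self hc

theorem small_mono {α : Type u} {c : Cardinal.{u}} {s t : Set α} (h : s ⊆ t) (ht : #t ≤ c) :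
    #s ≤ c := (Cardinal.mk_le_mk_of_subset h).trans ht

theorem small_subsingleton {α : Type u} {c : Cardinal.{u}} (hc : ℵ₀ ≤ c) {s : Set α}
    (hs : s.Subsingleton) : #s ≤ c := by
  have : s.Finite := hs.finite
  exact (this.lt_aleph0).le.trans hc

theorem small_singleton {α : Type u} {c : Cardinal.{u}} (hc : ℵ₀ ≤ c) (a : α) :
    #({a} : Set α) ≤ c := small_subsingleton hc subsingleton_singleton

theorem small_finite {α : Type u} {c : Cardinal.{u}} (hc : ℵ₀ ≤ c) {s : Set α}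
    (hs : s.Finite) : #s ≤ c := (hs.lt_aleph0).le.trans hc

theorem not_small_diff {α : Type u} {c : Cardinal.{u}} (hc : ℵ₀ ≤ c) {s t : Set α}
    (hs : ¬ #s ≤ c) (ht : #t ≤ c) : ¬ #(s \ t : Set α) ≤ c := by
  intro h
  apply hs
  refine small_mono (t := (s \ t) ∪ t) ?_ (small_union hc h ht)
  intro x hx
  by_cases hxt : x ∈ t
  · exact Or.inr hxt
  · exact Or.inl ⟨hx, hxt⟩

theorem exists_of_not_small {α : Type u} {c : Cardinal.{u}} {s : Set α}
    (hs : ¬ #s ≤ c) : s.Nonempty := by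
  by_contra h
  rw [Set.not_nonempty_iff_eq_empty] at h
  apply hs
  rw [h]
  simp

/-- a set of size larger than `c` is not covered by few small sets. -/
theorem exists_not_mem_biUnion {ι α : Type u} {c : Cardinal.{u}} (hc : ℵ₀ ≤ c) (s : Set ι)
    (hs : #s ≤ c) (f : ι → Set α) (E : Set α) (hE : ¬ #E ≤ c)
    (hf : ∀ i ∈ s, #(E ∩ f i : Set α) ≤ c) : ∃ x ∈ E, ∀ i ∈ s, x ∉ f i := by
  by_contra h
  push Not at h
  apply hE
  refine small_mono (t := ⋃ i ∈ s, E ∩ f i) ?_ (small_biUnion hc s hs _ hf)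
  intro x hx
  obtain ⟨i, hi, hxi⟩ := h x hx
  simp only [mem_iUnion]
  exact ⟨i, hi, hx, hxi⟩

/-- Recursive choice along a well-founded relation. -/
theorem rec_choice {ι β : Type*} [Nonempty β] {r : ι → ι → Prop} (wf : WellFounded r)
    (P : ι → (ι → β) → β → Prop)
    (hloc : ∀ i f g b, (∀ j, r j i → f j = g j) → P i f b → P i g b)
    (hstep : ∀ i f, (∀ j, r j i → P j f (f j)) → ∃ b, P i f b) :
    ∃ f : ι → β, ∀ i, P i f (f i) := by
  classical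
  let d : β := Classical.arbitrary β
  let F : ι → β := wf.fix (fun i prev =>
    if h : ∃ b, P i (fun j => if hj : r j i then prev j hj else d) b then h.choose else d)
  have hF : ∀ i, F i =
      if h : ∃ b, P i (fun j => if r j i then F j else d) b then h.choose else d := by
    intro i
    have := wf.fix_eq (C := fun _ => β) (fun i prev =>
      if h : ∃ b, P i (fun j => if hj : r j i then prev j hj else d) b then h.choose else d) i
    simp only [dite_eq_ite] at this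
    exact this
  refine ⟨F, ?_⟩
  intro i
  induction i using wf.induction with
  | _ i ih =>
    have h1 : ∃ b, P i F b := hstep i F ih
    have h2 : ∃ b, P i (fun j => if r j i then F j else d) b := by
      obtain ⟨b, hb⟩ := h1
      exact ⟨b, hloc i F _ b (fun j hj => by simp [hj]) hb⟩
    rw [hF i, dif_pos h2]
    have h3 := h2.choose_spec
    exact hloc i _ F _ (fun j hj => by simp [hj]) h3

/-- A weak form of the Delta-system lemma. -/
theorem weak_delta {E K : Type u} {c : Cardinal.{u}} (hc : ℵ₀ ≤ c) (hE : ¬ #E ≤ c) (Z : E → Set K)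
    (hZ : ∀ b, #(Z b) < c) :
    ∃ (T : Set E) (R : Set K), (¬ #T ≤ c) ∧ #R ≤ c ∧
      ∀ b ∈ T, ∀ b' ∈ T, b ≠ b' → Z b ∩ Z b' ⊆ R := by
  by_contra hcon
  push Not at hcon
  -- maximal families
  have hmax : ∀ R : Set K, ∃ T : Set E, T.Pairwise (fun b b' => Z b ∩ Z b' ⊆ R) ∧
      ∀ b, b ∉ T → ∃ b' ∈ T, ¬ (Z b ∩ Z b' ⊆ R) := by
    intro R
    obtain ⟨T, hT⟩ := zorn_subset {T : Set E | T.Pairwise (fun b b' => Z b ∩ Z b' ⊆ R)} (by
      intro c hc hchain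
      refine ⟨⋃₀ c, ?_, fun s hs => subset_sUnion_of_mem hs⟩
      exact (pairwise_sUnion hchain.directedOn).2 (fun s hs => hc hs))
    refine ⟨T, hT.prop, ?_⟩
    intro b hb
    by_contra h
    push Not at h
    have h2 : (insert b T).Pairwise (fun b b' => Z b ∩ Z b' ⊆ R) := by
      rw [pairwise_insert]
      refine ⟨hT.prop, ?_⟩
      intro b' hb' _
      refine ⟨h b' hb', ?_⟩
      rw [inter_comm]
      exact h b' hb'
    exact hb (hT.le_of_ge h2 (subset_insert b T) (mem_insert b T))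
  choose M hM1 hM2 using hmax
  have hMsmall : ∀ R : Set K, #R ≤ c → #(M R) ≤ c := by
    intro R hR
    by_contra h
    obtain ⟨b, hb, b', hb', hne, hsub⟩ := hcon (M R) R (not_le.1 h) hR
    exact hsub (hM1 R hb hb' hne)
  let F : Set K → Set K := fun R => R ∪ ⋃ b ∈ M R, Z b
  have hF : ∀ R : Set K, #R ≤ c → #(F R) ≤ c := by
    intro R hR
    exact small_union hc hR
      (small_biUnion hc _ (hMsmall R hR) _ (fun b _ => (hZ b).le))
  -- the recursion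
  let W := (c).ord.ToType
  have hWcard : #W = c := Cardinal.mk_ord_toType _
  obtain ⟨R, hR⟩ := rec_choice (ι := W) (β := Set K) (r := (· < ·)) wellFounded_lt
    (fun ξ f b => b = ⋃ η ∈ Iio ξ, F (f η))
    (by
      intro i f g b hfg h
      rw [h]
      refine iUnion₂_congr ?_
      intro j hj
      rw [hfg j hj])
    (by
      intro i f _
      exact ⟨_, rfl⟩)
  have hRsmall : ∀ ξ, #(R ξ) ≤ c := by
    intro ξ
    induction ξ using WellFoundedLT.induction with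
    | _ ξ ih =>
      rw [hR ξ]
      refine small_biUnion hc _ ?_ _ ?_
      · exact (Cardinal.mk_set_le _).trans hWcard.le
      · intro η hη
        exact hF _ (ih η hη)
  -- pick a point outside all the maximal families
  have hall : #(⋃ ξ, M (R ξ) : Set E) ≤ c :=
    small_iUnion hc hWcard.le _ (fun ξ => hMsmall _ (hRsmall ξ))
  have hEuniv : ¬ #(univ : Set E) ≤ c := by simpa using hE
  obtain ⟨b, _, hb⟩ := exists_of_not_small (not_small_diff hc hEuniv hall)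
  have hb' : ∀ ξ, b ∉ M (R ξ) := by
    intro ξ h
    exact hb (mem_iUnion.2 ⟨ξ, h⟩)
  have hz : ∀ ξ : W, ∃ z, z ∈ Z b ∧ z ∉ R ξ ∧ z ∈ F (R ξ) := by
    intro ξ
    obtain ⟨b', hb'M, hnot⟩ := hM2 (R ξ) b (hb' ξ)
    rw [not_subset] at hnot
    obtain ⟨z, hz, hzR⟩ := hnot
    refine ⟨z, hz.1, hzR, Or.inr ?_⟩
    simp only [mem_iUnion]
    exact ⟨b', hb'M, hz.2⟩
  choose z hz1 hz2 hz3 using hz
  have hinj : Function.Injective z := by
    have key : ∀ ξ η : W, ξ < η → z ξ ≠ z η := by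
      intro ξ η hlt heq
      apply hz2 η
      rw [hR η]
      simp only [mem_iUnion]
      exact ⟨ξ, hlt, heq ▸ hz3 ξ⟩
    intro ξ η heq
    rcases lt_trichotomy ξ η with h | h | h
    · exact absurd heq (key ξ η h)
    · exact h
    · exact absurd heq.symm (key η ξ h)
  have : #W ≤ #(Z b) := by
    refine Cardinal.mk_le_of_injective (f := fun ξ => (⟨z ξ, hz1 ξ⟩ : Z b)) ?_
    intro ξ η h
    exact hinj (Subtype.ext_iff.1 h)
  rw [hWcard] at this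
  exact absurd (hZ b) (not_lt.2 this)


end DS

/-- Pigeonhole principle. -/
theorem pigeon {E C : Type} {χ : Cardinal.{0}} (hχ : ℵ₀ ≤ χ) (T : Set E) (hT : ¬ #T ≤ χ)
    (f : E → C) (hC : #C ≤ χ) : ∃ (T' : Set E) (z : C), T' ⊆ T ∧ (¬ #T' ≤ χ) ∧ ∀ e ∈ T', f e = z := by
  by_contra hcon
  push Not at hcon
  apply hT
  have h1 : ∀ z : C, #({e | e ∈ T ∧ f e = z} : Set E) ≤ χ := by
    intro z
    by_contra h
    obtain ⟨e, he, hne⟩ := hcon {e | e ∈ T ∧ f e = z} z (fun e he => he.1) (not_le.1 h)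
    exact hne he.2
  refine DS.small_mono (t := ⋃ z : C, {e | e ∈ T ∧ f e = z}) ?_ (DS.small_iUnion hχ hC _ h1)
  intro e he
  exact mem_iUnion.2 ⟨f e, he, rfl⟩

/-- The delta system lemma. -/
theorem delta_sys {E K : Type} {χ σ : Cardinal.{0}} (hχ : ℵ₀ ≤ χ) (hσ : σ ≤ χ)
    (hpow : ∀ τ < σ, χ ^ τ ≤ χ) (T : Set E) (hT : ¬ #T ≤ χ) (Z : E → Set K)
    (hZ : ∀ e, #(Z e) < σ) :
    ∃ (T' : Set E) (R : Set K), T' ⊆ T ∧ (¬ #T' ≤ χ) ∧
      ∀ e ∈ T', ∀ e' ∈ T', e ≠ e' → Z e ∩ Z e' = R := by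
  obtain ⟨T1, R, hT1, hR, hTR⟩ := DS.weak_delta (E := T) hχ hT (fun e => Z e.1)
    (fun e => (hZ e.1).trans_le hσ)
  have hT2 : ¬ #(Subtype.val '' T1 : Set E) ≤ χ := by
    rw [Cardinal.mk_image_eq Subtype.val_injective]
    exact hT1
  -- the possible traces
  have hC : ∃ C : Set (Set K), #C ≤ χ ∧ ∀ e, Z e ∩ R ∈ C := by
    refine ⟨⋃ w : σ.ord.ToType, {t : Set K | t ⊆ R ∧
      #t ≤ (Ordinal.ToType.mk.symm w).1.card}, ?_, ?_⟩
    · refine DS.small_iUnion hχ ?_ _ ?_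
      · rw [Cardinal.mk_ord_toType]; exact hσ
      · intro w
        have h1 : (Ordinal.ToType.mk.symm w).1.card < σ := by
          have h : (Ordinal.ToType.mk.symm w).1 < σ.ord := (Ordinal.ToType.mk.symm w).2
          exact Cardinal.lt_ord.1 h
        refine (Cardinal.mk_bounded_subset_le R _).trans ?_
        refine le_trans ?_ (hpow _ h1)
        exact Cardinal.power_le_power_right (max_le hR hχ)
    · intro e
      have h1 : #(Z e ∩ R : Set K) < σ := (Cardinal.mk_le_mk_of_subset inter_subset_left).trans_lt (hZ e)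
      have h2 : (#(Z e ∩ R : Set K)).ord < σ.ord := Cardinal.ord_lt_ord.2 h1
      refine mem_iUnion.2 ⟨Ordinal.ToType.mk ⟨_, h2⟩, inter_subset_right, ?_⟩
      rw [Ordinal.ToType.mk.symm_apply_apply, Cardinal.card_ord]
  obtain ⟨C, hCχ, hCZ⟩ := hC
  obtain ⟨T', z, hT'sub, hT', hz⟩ := pigeon hχ (Subtype.val '' T1 : Set E) hT2
    (fun e => (⟨Z e ∩ R, hCZ e⟩ : C)) hCχ
  refine ⟨T', z.1, ?_, hT', ?_⟩
  · intro e he
    obtain ⟨e', _, rfl⟩ := hT'sub he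
    exact e'.2
  · intro e he e' he' hne
    have h1 : Z e ∩ R = z.1 := congrArg Subtype.val (hz e he)
    have h2 : Z e' ∩ R = z.1 := congrArg Subtype.val (hz e' he')
    obtain ⟨a, ha, rfl⟩ := hT'sub he
    obtain ⟨a', ha', rfl⟩ := hT'sub he'
    have h3 : Z a.1 ∩ Z a'.1 ⊆ R := hTR a ha a' ha' (fun h => hne (by rw [h]))
    apply Subset.antisymm
    · intro k hk
      rw [← h1]
      exact ⟨hk.1, h3 hk⟩
    · intro k hk
      have h4 : k ∈ Z a.1 ∩ R := by rw [h1]; exact hk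
      have h5 : k ∈ Z a'.1 ∩ R := by rw [h2]; exact hk
      exact ⟨h4.1, h5.1⟩

/-- A family of more than `2 ^ c` conditions contains an equally large one whose big parts have the same height, form a
delta system with root `Y0`, and agree on the root. -/
theorem stage {E : Type} (T : Set E) (hT : ¬ #T ≤ (2 : Cardinal.{0}) ^ Q.c) (q : E → Cond Q) :
    ∃ (T' : Set E) (Y0 : Set Q.K), T' ⊆ T ∧ (¬ #T' ≤ (2 : Cardinal.{0}) ^ Q.c) ∧
      (∀ e ∈ T', Y0 ⊆ (q e).s.Y) ∧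
      (∀ e ∈ T', ∀ e' ∈ T', e ≠ e' → (q e).s.Y ∩ (q e').s.Y = Y0) ∧
      (∀ e ∈ T', ∀ e' ∈ T', (q e).s.dl = (q e').s.dl) ∧
      (∀ e ∈ T', ∀ e' ∈ T', ∀ a ∈ Y0, ∀ η < (q e).s.dl, (q e).s.ga a η = (q e').s.ga a η) ∧
      (∀ e ∈ T', ∀ e' ∈ T', ∀ a ∈ Y0, (q e).s.t a = (q e').s.t a) ∧
      (∀ e ∈ T', ∀ e' ∈ T', ∀ a ∈ Y0, (a ∈ (q e).x.X ↔ a ∈ (q e').x.X)) ∧
      (∀ e ∈ T', ∀ e' ∈ T', ∀ a ∈ Y0, ∀ b ∈ Y0, ((q e).x.G a b ↔ (q e').x.G a b)) := by
  have hc0 : ℵ₀ ≤ Q.c := Q.hθ.trans Q.hθc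
  have h2c : Q.c < (2 : Cardinal.{0}) ^ Q.c := cantor _
  have hχ : ℵ₀ ≤ (2 : Cardinal.{0}) ^ Q.c := hc0.trans h2c.le
  have hpow : ∀ τ ≤ Q.c, ((2 : Cardinal.{0}) ^ Q.c) ^ τ ≤ (2 : Cardinal.{0}) ^ Q.c := by
    intro τ hτ
    rw [← Cardinal.power_mul]
    apply Cardinal.power_le_power_left two_ne_zero
    calc Q.c * τ ≤ Q.c * Q.c := mul_le_mul' le_rfl hτ
      _ = Q.c := Cardinal.mul_eq_self hc0
  have hfun : ∀ (A B : Type), #A ≤ Q.c → #B ≤ (2 : Cardinal.{0}) ^ Q.c →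
      #(A → B) ≤ (2 : Cardinal.{0}) ^ Q.c := by
    intro A B hA hB
    rw [← Cardinal.power_def]
    exact (Cardinal.power_le_power_right hB).trans (hpow _ hA)
  have hprod : ∀ (A B : Type), #A ≤ (2 : Cardinal.{0}) ^ Q.c → #B ≤ (2 : Cardinal.{0}) ^ Q.c →
      #(A × B) ≤ (2 : Cardinal.{0}) ^ Q.c := by
    intro A B hA hB
    rw [Cardinal.mk_prod, Cardinal.lift_id, Cardinal.lift_id]
    exact (mul_le_mul' hA hB).trans (Cardinal.mul_eq_self hχ).le
  have hProp : #Prop ≤ (2 : Cardinal.{0}) ^ Q.c := by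
    rw [Cardinal.mk_Prop]
    exact (Cardinal.natCast_lt_aleph0 (n := 2)).le.trans hχ
  have hM : #Q.M ≤ (2 : Cardinal.{0}) ^ Q.c := by
    rw [Q.hM]
    exact Order.succ_le_of_lt h2c
  obtain ⟨T1, R, hT1, hT1c, hR⟩ := delta_sys (χ := (2 : Cardinal.{0}) ^ Q.c)
    (σ := Order.succ Q.c) hχ (Order.succ_le_of_lt h2c)
    (fun τ hτ => hpow τ (Order.lt_succ_iff.1 hτ)) T hT (fun e => (q e).s.Y)
    (fun e => Order.lt_succ_iff.2 (q e).s.hY)
  have hRsub : ∀ e ∈ T1, R ⊆ (q e).s.Y := by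
    intro e he
    by_cases hex : ∃ e' ∈ T1, e ≠ e'
    · obtain ⟨e', he', hne⟩ := hex
      rw [← hR e he e' he' hne]
      exact inter_subset_left
    · exfalso
      push Not at hex
      apply hT1c
      have hsub : T1 ⊆ {e} := fun x hx => (hex x hx).symm
      refine (Cardinal.mk_le_mk_of_subset hsub).trans ?_
      rw [Cardinal.mk_singleton]
      exact Cardinal.one_le_aleph0.trans hχ
  have hRc : #R ≤ Q.c := by
    have hne : T1.Nonempty := by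
      rw [nonempty_iff_ne_empty]
      rintro rfl
      apply hT1c
      rw [Cardinal.mk_eq_zero]
      exact zero_le
    obtain ⟨e, he⟩ := hne
    exact (Cardinal.mk_le_mk_of_subset (hRsub e he)).trans (q e).s.hY
  obtain ⟨T2, dl0, hT2, hT2c, hdl⟩ := pigeon hχ T1 hT1c (fun e => (q e).s.dl) hM
  have hzz : ∃ T3 : Set E, T3 ⊆ T2 ∧ (¬ #T3 ≤ (2 : Cardinal.{0}) ^ Q.c) ∧
      ∀ e ∈ T3, ∀ e' ∈ T3, (((fun a η => (q e).s.ga a η, fun a => (q e).s.t a,
      fun a => (a : Q.K) ∈ (q e).x.X, fun a b => (q e).x.G a b) :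
        (R → Iio dl0 → Q.M) × (R → Q.M) × (R → Prop) × (R → R → Prop))) =
      ((fun a η => (q e').s.ga a η, fun a => (q e').s.t a,
      fun a => (a : Q.K) ∈ (q e').x.X, fun a b => (q e').x.G a b) :
        (R → Iio dl0 → Q.M) × (R → Q.M) × (R → Prop) × (R → R → Prop)) := by
    obtain ⟨T3, z, hT3, hT3c, hz⟩ := pigeon
      (C := (R → Iio dl0 → Q.M) × (R → Q.M) × (R → Prop) × (R → R → Prop)) hχ T2 hT2c
      (fun e => (fun a η => (q e).s.ga a η, fun a => (q e).s.t a, fun a => (a : Q.K) ∈ (q e).x.X,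
        fun a b => (q e).x.G a b))
      (hprod _ _ (hfun _ _ hRc (hfun _ _ (Q.hMs dl0) hM)) (hprod _ _ (hfun _ _ hRc hM)
        (hprod _ _ (hfun _ _ hRc hProp) (hfun _ _ hRc (hfun _ _ hRc hProp)))))
    exact ⟨T3, hT3, hT3c, fun e he e' he' => (hz e he).trans (hz e' he').symm⟩
  obtain ⟨T3, hT3, hT3c, hzz⟩ := hzz
  refine ⟨T3, R, hT3.trans (hT2.trans hT1), hT3c, fun e he => hRsub e (hT2 (hT3 he)),
    fun e he e' he' hne => hR e (hT2 (hT3 he)) e' (hT2 (hT3 he')) hne, ?_, ?_, ?_, ?_, ?_⟩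
  · intro e he e' he'
    rw [hdl e (hT3 he), hdl e' (hT3 he')]
  · intro e he e' he' a ha η hη
    have h1 := (Prod.mk.inj (hzz e he e' he')).1
    rw [hdl e (hT3 he)] at hη
    exact congrFun (congrFun h1 ⟨a, ha⟩) ⟨η, hη⟩
  · intro e he e' he' a ha
    have h1 := (Prod.mk.inj (Prod.mk.inj (hzz e he e' he')).2).1
    exact congrFun h1 ⟨a, ha⟩
  · intro e he e' he' a ha
    have h1 := (Prod.mk.inj (Prod.mk.inj (Prod.mk.inj (hzz e he e' he')).2).2).1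
    exact iff_of_eq (congrFun h1 ⟨a, ha⟩)
  · intro e he e' he' a ha b hb
    have h1 := (Prod.mk.inj (Prod.mk.inj (Prod.mk.inj (hzz e he e' he')).2).2).2
    exact iff_of_eq (congrFun (congrFun h1 ⟨a, ha⟩) ⟨b, hb⟩)

open Classical in
theorem amalg_aux (p q : Cond Q) (hdl : p.s.dl ≤ q.s.dl)
    (hga : ∀ a ∈ p.s.Y, a ∈ q.s.Y → ∀ η < p.s.dl, p.s.ga a η = q.s.ga a η)
    (hga' : ∀ a ∈ p.s.Y, a ∈ q.s.Y → ∀ η, p.s.dl ≤ η → η < q.s.dl → p.s.t a ≤ q.s.ga a η)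
    (ht : ∀ a ∈ p.s.Y, a ∈ q.s.Y → p.s.t a ≤ q.s.t a)
    (hG : ∀ a ∈ p.x.X, a ∈ q.x.X → ∀ b ∈ p.x.X, b ∈ q.x.X → (p.x.G a b ↔ q.x.G a b))
    (N : Q.K → Q.K → Prop)
    (hN1 : ∀ a b, N a b → a ∈ p.x.X ∧ b ∈ q.x.X ∧ a ∉ q.s.Y ∧ b ∉ p.s.Y ∧ Q.lev a < Q.lev b ∧
      p.s.dl ≤ Q.lev b)
    (hN2 : ∀ a b a' b', N a b → N a' b' → a = a' ∧ b = b')
    (hN3 : ∀ a b, N a b → ∀ w ∈ p.x.X, w ∈ q.x.X → (p.x.G w a ∨ p.x.G a w) →
      (q.x.G w b ∨ q.x.G b w) → Q.lev w < Q.lev a ∧ p.s.t a < q.s.ga w (Q.lev b)) :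
    ∃ r : Cond Q, r ≤ p ∧ r ≤ q ∧ ∀ a b, N a b → r.x.G a b := by
  have hcinf : ℵ₀ ≤ Q.c := Q.hθ.trans Q.hθc
  let s : Big Q :=
    { Y := p.s.Y ∪ q.s.Y
      dl := q.s.dl
      ga := fun a η => if a ∈ q.s.Y then q.s.ga a η else
        if η < p.s.dl then p.s.ga a η else p.s.t a
      t := fun a => if a ∈ q.s.Y then q.s.t a else p.s.t a
      hY := (Cardinal.mk_union_le _ _).trans (Cardinal.add_le_of_le hcinf p.s.hY q.s.hY)
      hlev := by
        rintro a (ha | ha)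
        · exact (p.s.hlev a ha).trans_le hdl
        · exact q.s.hlev a ha }
  have hsp : s ≤ p.s := by
    refine ⟨subset_union_left, hdl, ?_, ?_, ?_⟩
    · intro a ha η hη
      change (if a ∈ q.s.Y then q.s.ga a η else if η < p.s.dl then p.s.ga a η else p.s.t a) = _
      split_ifs with h1
      · exact (hga a ha h1 η hη).symm
      · rfl
    · intro a ha η hη hη'
      change _ ≤ (if a ∈ q.s.Y then q.s.ga a η else if η < p.s.dl then p.s.ga a η else p.s.t a)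
      split_ifs with h1 h2
      · exact hga' a ha h1 η hη hη'
      · exact absurd h2 (not_lt.2 hη)
      · exact le_rfl
    · intro a ha
      change _ ≤ (if a ∈ q.s.Y then q.s.t a else p.s.t a)
      split_ifs with h1
      · exact ht a ha h1
      · exact le_rfl
  have hsq : s ≤ q.s := by
    refine ⟨subset_union_right, le_rfl, ?_, ?_, ?_⟩
    · intro a ha η hη
      change (if a ∈ q.s.Y then q.s.ga a η else if η < p.s.dl then p.s.ga a η else p.s.t a) = _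
      rw [if_pos ha]
    · intro a ha η hη hη'
      exact absurd hη' (not_lt.2 hη)
    · intro a ha
      change _ ≤ (if a ∈ q.s.Y then q.s.t a else p.s.t a)
      rw [if_pos ha]
  let x : Sm Q :=
    { X := p.x.X ∪ q.x.X
      G := fun a b => p.x.G a b ∨ q.x.G a b ∨ N a b
      hX := (Cardinal.mk_union_le _ _).trans_lt (Cardinal.add_lt_of_lt Q.hθ p.x.hX q.x.hX)
      hG := by
        rintro a b (h | h | h)
        · obtain ⟨h1, h2, h3⟩ := p.x.hG a b h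
          exact ⟨Or.inl h1, Or.inl h2, h3⟩
        · obtain ⟨h1, h2, h3⟩ := q.x.hG a b h
          exact ⟨Or.inr h1, Or.inr h2, h3⟩
        · obtain ⟨h1, h2, _, _, h5, _⟩ := hN1 a b h
          exact ⟨Or.inl h1, Or.inr h2, h5⟩ }
  have hxp : x ≤ p.x := by
    refine ⟨subset_union_left, fun a ha b hb => ⟨?_, fun h => Or.inl h⟩⟩
    rintro (h | h | h)
    · exact h
    · obtain ⟨h1, h2, h3⟩ := q.x.hG a b h
      exact (hG a ha h1 b hb h2).2 h
    · exact absurd (p.sub hb) (hN1 a b h).2.2.2.1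
  have hxq : x ≤ q.x := by
    refine ⟨subset_union_right, fun a ha b hb => ⟨?_, fun h => Or.inr (Or.inl h)⟩⟩
    rintro (h | h | h)
    · obtain ⟨h1, h2, h3⟩ := p.x.hG a b h
      exact (hG a h1 ha b h2 hb).1 h
    · exact h
    · exact absurd (q.sub ha) (hN1 a b h).2.2.1
  -- all vertices in `p` or all in `q`
  have trip : ∀ a a' b, a ∈ p.x.X → a' ∈ p.x.X → b ∈ p.x.X → x.G a a' → x.G a b → x.G a' b →
      s.ga a' (Q.lev b) < s.ga a (Q.lev b) := by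
    intro a a' b ha ha' hb h1 h2 h3
    have h4 := p.tri a a' b ((hxp.2 a ha a' ha').1 h1) ((hxp.2 a ha b hb).1 h2)
      ((hxp.2 a' ha' b hb).1 h3)
    rw [hsp.2.2.1 a' (p.sub ha') _ (p.s.hlev b (p.sub hb)),
      hsp.2.2.1 a (p.sub ha) _ (p.s.hlev b (p.sub hb))]
    exact h4
  have triq : ∀ a a' b, a ∈ q.x.X → a' ∈ q.x.X → b ∈ q.x.X → x.G a a' → x.G a b → x.G a' b →
      s.ga a' (Q.lev b) < s.ga a (Q.lev b) := by
    intro a a' b ha ha' hb h1 h2 h3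
    have h4 := q.tri a a' b ((hxq.2 a ha a' ha').1 h1) ((hxq.2 a ha b hb).1 h2)
      ((hxq.2 a' ha' b hb).1 h3)
    rw [hsq.2.2.1 a' (q.sub ha') _ (q.s.hlev b (q.sub hb)),
      hsq.2.2.1 a (q.sub ha) _ (q.s.hlev b (q.sub hb))]
    exact h4
  have htri : ∀ a a' b, x.G a a' → x.G a b → x.G a' b →
      s.ga a' (Q.lev b) < s.ga a (Q.lev b) := by
    intro a a' b h1 h2 h3
    have l1 := (x.hG a a' h1).2.2
    have l2 := (x.hG a b h2).2.2
    have l3 := (x.hG a' b h3).2.2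
    by_cases n1 : N a a'
    · exfalso
      obtain ⟨m1, m2, m3, m4, m5, m6⟩ := hN1 a a' n1
      have e2 : p.x.G a b := by
        rcases h2 with h | h | h
        · exact h
        · exact absurd (q.sub (q.x.hG a b h).1) m3
        · have := (hN2 _ _ _ _ n1 h).2
          rw [this] at l3
          exact absurd l3 (lt_irrefl _)
      have e3 : q.x.G a' b := by
        rcases h3 with h | h | h
        · exact absurd (p.sub (p.x.hG a' b h).1) m4
        · exact h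
        · have := (hN2 _ _ _ _ n1 h).1
          rw [this] at l1
          exact absurd l1 (lt_irrefl _)
      have := (hN3 a a' n1 b (p.x.hG a b e2).2.1 (q.x.hG a' b e3).2.1 (Or.inr e2) (Or.inr e3)).1
      exact absurd l2 (not_lt.2 this.le)
    · by_cases n2 : N a b
      · exfalso
        obtain ⟨m1, m2, m3, m4, m5, m6⟩ := hN1 a b n2
        have e1 : p.x.G a a' := by
          rcases h1 with h | h | h
          · exact h
          · exact absurd (q.sub (q.x.hG a a' h).1) m3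
          · exact absurd h n1
        have e3 : q.x.G a' b := by
          rcases h3 with h | h | h
          · exact absurd (p.sub (p.x.hG a' b h).2.1) m4
          · exact h
          · have := (hN2 _ _ _ _ n2 h).1
            rw [this] at l1
            exact absurd l1 (lt_irrefl _)
        have := (hN3 a b n2 a' (p.x.hG a a' e1).2.1 (q.x.hG a' b e3).1 (Or.inr e1) (Or.inl e3)).1
        exact absurd l1 (not_lt.2 this.le)
      · by_cases n3 : N a' b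
        · obtain ⟨m1, m2, m3, m4, m5, m6⟩ := hN1 a' b n3
          have e1 : p.x.G a a' := by
            rcases h1 with h | h | h
            · exact h
            · exact absurd (q.sub (q.x.hG a a' h).2.1) m3
            · exact absurd h n1
          have e2 : q.x.G a b := by
            rcases h2 with h | h | h
            · exact absurd (p.sub (p.x.hG a b h).2.1) m4
            · exact h
            · exact absurd h n2
          have haq := (q.x.hG a b e2).1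
          have := (hN3 a' b n3 a (p.x.hG a a' e1).1 haq (Or.inl e1) (Or.inl e2)).2
          change (if a' ∈ q.s.Y then q.s.ga a' (Q.lev b) else
            if Q.lev b < p.s.dl then p.s.ga a' (Q.lev b) else p.s.t a') <
            (if a ∈ q.s.Y then q.s.ga a (Q.lev b) else
            if Q.lev b < p.s.dl then p.s.ga a (Q.lev b) else p.s.t a)
          rw [if_neg m3, if_neg (not_lt.2 m6), if_pos (q.sub haq)]
          exact this
        · have g1 : p.x.G a a' ∨ q.x.G a a' := by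
            rcases h1 with h | h | h
            · exact Or.inl h
            · exact Or.inr h
            · exact absurd h n1
          have g2 : p.x.G a b ∨ q.x.G a b := by
            rcases h2 with h | h | h
            · exact Or.inl h
            · exact Or.inr h
            · exact absurd h n2
          have g3 : p.x.G a' b ∨ q.x.G a' b := by
            rcases h3 with h | h | h
            · exact Or.inl h
            · exact Or.inr h
            · exact absurd h n3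
          rcases g1 with g1 | g1
          · obtain ⟨pa, pa', _⟩ := p.x.hG _ _ g1
            rcases g2 with g2 | g2
            · exact trip a a' b pa pa' (p.x.hG _ _ g2).2.1 h1 h2 h3
            · obtain ⟨qa, qb, _⟩ := q.x.hG _ _ g2
              rcases g3 with g3 | g3
              · exact trip a a' b pa pa' (p.x.hG _ _ g3).2.1 h1 h2 h3
              · exact triq a a' b qa (q.x.hG _ _ g3).1 qb h1 h2 h3
          · obtain ⟨qa, qa', _⟩ := q.x.hG _ _ g1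
            rcases g2 with g2 | g2
            · obtain ⟨pa, pb, _⟩ := p.x.hG _ _ g2
              rcases g3 with g3 | g3
              · exact trip a a' b pa (p.x.hG _ _ g3).1 pb h1 h2 h3
              · exact triq a a' b qa qa' (q.x.hG _ _ g3).2.1 h1 h2 h3
            · exact triq a a' b qa qa' (q.x.hG _ _ g2).2.1 h1 h2 h3
  let r : Cond Q :=
    { s := s
      x := x
      sub := union_subset_union p.sub q.sub
      tri := htri }
  exact ⟨r, ⟨hsp, hxp⟩, ⟨hsq, hxq⟩, fun a b h => Or.inr (Or.inr h)⟩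

/-- Amalgamation of two conditions, possibly with one new edge from `u` to `v`. -/
theorem amalg (p q : Cond Q) (hdl : p.s.dl ≤ q.s.dl)
    (hga : ∀ a ∈ p.s.Y, a ∈ q.s.Y → ∀ η < p.s.dl, p.s.ga a η = q.s.ga a η)
    (hga' : ∀ a ∈ p.s.Y, a ∈ q.s.Y → ∀ η, p.s.dl ≤ η → η < q.s.dl → p.s.t a ≤ q.s.ga a η)
    (ht : ∀ a ∈ p.s.Y, a ∈ q.s.Y → p.s.t a ≤ q.s.t a)
    (hG : ∀ a ∈ p.x.X, a ∈ q.x.X → ∀ b ∈ p.x.X, b ∈ q.x.X → (p.x.G a b ↔ q.x.G a b)) :
    (∃ r : Cond Q, r ≤ p ∧ r ≤ q) ∧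
    ∀ u v : Q.K, u ∈ p.x.X → v ∈ q.x.X → u ∉ q.s.Y → v ∉ p.s.Y → Q.lev u < Q.lev v →
      p.s.dl ≤ Q.lev v →
      (∀ w ∈ p.x.X, w ∈ q.x.X → (p.x.G w u ∨ p.x.G u w) → (q.x.G w v ∨ q.x.G v w) →
        Q.lev w < Q.lev u ∧ p.s.t u < q.s.ga w (Q.lev v)) →
      ∃ r : Cond Q, r ≤ p ∧ r ≤ q ∧ r.x.G u v := by
  refine ⟨?_, ?_⟩
  · obtain ⟨r, h1, h2, _⟩ := amalg_aux p q hdl hga hga' ht hG (fun _ _ => False)
      (fun _ _ h => h.elim) (fun _ _ _ _ h => h.elim) (fun _ _ h => h.elim)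
    exact ⟨r, h1, h2⟩
  · intro u v hu hv huq hvp hl hd hw
    obtain ⟨r, h1, h2, h3⟩ := amalg_aux p q hdl hga hga' ht hG (fun a b => a = u ∧ b = v)
      (by
        rintro a b ⟨rfl, rfl⟩
        exact ⟨hu, hv, huq, hvp, hl, hd⟩)
      (by
        rintro a b a' b' ⟨rfl, rfl⟩ ⟨rfl, rfl⟩
        exact ⟨rfl, rfl⟩)
      (by
        rintro a b ⟨rfl, rfl⟩
        exact hw)
    exact ⟨r, h1, h2, h3 u v ⟨rfl, rfl⟩⟩

/-- The `(2 ^ c)⁺`-chain condition. -/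
theorem cc {E : Type} (T : Set E) (hT : ¬ #T ≤ (2 : Cardinal.{0}) ^ Q.c) (q : E → Cond Q) :
    ∃ e ∈ T, ∃ e' ∈ T, e ≠ e' ∧ ∃ r : Cond Q, r ≤ q e ∧ r ≤ q e' := by
  obtain ⟨T', Y0, hTT, hT', hY0, hint, hdl, hga, ht, hX, hG⟩ := stage T hT q
  have h1 : (1 : Cardinal.{0}) ≤ (2 : Cardinal.{0}) ^ Q.c := by
    rw [Cardinal.one_le_iff_ne_zero]
    exact Cardinal.power_ne_zero _ two_ne_zero
  have hns : ¬ T'.Subsingleton := by
    intro hs
    apply hT'
    refine le_trans ?_ h1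
    rw [Cardinal.mk_le_one_iff_set_subsingleton]
    exact hs
  rw [Set.not_subsingleton_iff] at hns
  obtain ⟨e, he, e', he', hne⟩ := hns
  have hmem : ∀ a ∈ (q e).s.Y, a ∈ (q e').s.Y → a ∈ Y0 := by
    intro a ha ha'
    rw [← hint e he e' he' hne]
    exact ⟨ha, ha'⟩
  refine ⟨e, hTT he, e', hTT he', hne, ?_⟩
  refine (amalg (q e) (q e') (hdl e he e' he').le ?_ ?_ ?_ ?_).1
  · intro a ha ha' η hη
    exact hga e he e' he' a (hmem a ha ha') η hη
  · intro a ha ha' η h2 h3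
    rw [hdl e he e' he'] at h2
    exact absurd h3 (not_lt.mpr h2)
  · intro a ha ha'
    exact (ht e he e' he' a (hmem a ha ha')).le
  · intro a ha ha' b hb hb'
    exact hG e he e' he' a (hmem a ((q e).sub ha) ((q e').sub ha')) b (hmem b ((q e).sub hb) ((q e').sub hb'))

/-- A set of vertices of full cardinality has more than `2 ^ c` elements on one high level. -/
theorem many2 (B : Set Q.K) (hB : ¬ #B < #Q.K) (i : Q.M) :
    ∃ ξ, i ≤ ξ ∧ ¬ #{b : Q.K | Q.lev b = ξ ∧ b ∈ B} ≤ (2 : Cardinal.{0}) ^ Q.c := by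
  by_contra hcon
  push Not at hcon
  apply hB
  have hc0 : ℵ₀ ≤ Q.c := Q.hθ.trans Q.hθc
  have hcc : Q.c < 2 ^ Q.c := Cardinal.cantor _
  have h2c : ℵ₀ ≤ (2 : Cardinal.{0}) ^ Q.c := hc0.trans hcc.le
  have hK0 : ℵ₀ ≤ #Q.K := h2c.trans Q.hK.le
  have hsub : B ⊆ {a : Q.K | Q.lev a < i} ∪
      ⋃ ξ : Q.M, {b : Q.K | Q.lev b = ξ ∧ b ∈ B ∧ i ≤ ξ} := by
    intro b hb
    rcases lt_or_ge (Q.lev b) i with h | h
    · exact Or.inl h
    · exact Or.inr (Set.mem_iUnion.mpr ⟨Q.lev b, rfl, hb, h⟩)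
  have h1 : #(⋃ ξ : Q.M, {b : Q.K | Q.lev b = ξ ∧ b ∈ B ∧ i ≤ ξ} : Set Q.K) ≤ 2 ^ Q.c := by
    refine (Cardinal.mk_iUnion_le_sum_mk).trans ?_
    have h2 : (Cardinal.sum fun ξ : Q.M => #{b : Q.K | Q.lev b = ξ ∧ b ∈ B ∧ i ≤ ξ}) ≤
        Cardinal.sum fun _ : Q.M => (2 : Cardinal.{0}) ^ Q.c := by
      refine Cardinal.sum_le_sum _ _ fun ξ => ?_
      by_cases h : i ≤ ξ
      · refine le_trans (Cardinal.mk_le_mk_of_subset ?_) (hcon ξ h)
        rintro b ⟨hb1, hb2, -⟩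
        exact ⟨hb1, hb2⟩
      · have : {b : Q.K | Q.lev b = ξ ∧ b ∈ B ∧ i ≤ ξ} = ∅ := by
          ext b
          simp [h]
        rw [this, Cardinal.mk_eq_zero]
        exact zero_le
    refine h2.trans ?_
    rw [Cardinal.sum_const', Q.hM]
    exact Cardinal.mul_le_of_le h2c (Order.succ_le_of_lt hcc) le_rfl
  calc #B ≤ #({a : Q.K | Q.lev a < i} ∪
      ⋃ ξ : Q.M, {b : Q.K | Q.lev b = ξ ∧ b ∈ B ∧ i ≤ ξ} : Set Q.K) :=
        Cardinal.mk_le_mk_of_subset hsub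
    _ ≤ #{a : Q.K | Q.lev a < i} + #(⋃ ξ : Q.M, {b : Q.K | Q.lev b = ξ ∧ b ∈ B ∧ i ≤ ξ} : Set Q.K) :=
        Cardinal.mk_union_le _ _
    _ < #Q.K := Cardinal.add_lt_of_lt hK0 (Q.hlev i) (h1.trans_lt Q.hK)

/-- The data recorded at one stage of the main construction. -/
structure Data (Q : Par) where
  ξ : Q.M
  tt : Q.M
  R : Set Q.K
  g0 : Q.K → Q.K → Prop
  E : Set (Q.K × Cond Q)

/-- What is known about the data. -/
structure Good (p : Cond Q) (U : Cond Q → Q.K → Prop) (i : Q.M) (s s' : Big Q) (d : Data Q) : Prop where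
  iξ : i ≤ d.ξ
  sξ : s.dl ≤ d.ξ
  ξs : d.ξ < s'.dl
  big : ¬ #d.E ≤ (2 : Cardinal.{0}) ^ Q.c
  le : ∀ e ∈ d.E, e.2.s ≤ s ∧ e.2.x ≤ p.x
  lev : ∀ e ∈ d.E, Q.lev e.1 = d.ξ
  u : ∀ e ∈ d.E, U e.2 e.1
  mem : ∀ e ∈ d.E, e.1 ∈ e.2.x.X
  nmem : ∀ e ∈ d.E, e.1 ∉ s'.Y
  t : ∀ e ∈ d.E, e.2.s.t e.1 = d.tt
  dl : ∀ e ∈ d.E, e.2.s.dl = s'.dl
  root : ∀ e ∈ d.E, s'.Y ⊆ e.2.s.Y
  disj : ∀ e ∈ d.E, ∀ e' ∈ d.E, e ≠ e' → e.2.s.Y ∩ e'.2.s.Y = s'.Y
  ga : ∀ e ∈ d.E, ∀ a ∈ s'.Y, ∀ η < s'.dl, e.2.s.ga a η = s'.ga a η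
  tle : ∀ e ∈ d.E, ∀ a ∈ s'.Y, e.2.s.t a ≤ s'.t a
  tlt : ∀ a ∈ s'.Y, d.tt < s'.t a
  Rsub : d.R ⊆ s'.Y
  R : ∀ e ∈ d.E, e.2.x.X ∩ s'.Y = d.R
  Rc : #d.R < Q.θ
  g : ∀ e ∈ d.E, ∀ a ∈ d.R, ∀ b ∈ d.R, (e.2.x.G a b ↔ d.g0 a b)

/-- One stage of the main construction. -/
theorem step (p : Cond Q) (U : Cond Q → Q.K → Prop)
    (hUd : ∀ q r b, U q b → r ≤ q → U r b)
    (hbig : ∀ q ≤ p, ¬ #{b : Q.K | ∃ r ≤ q, U r b} < #Q.K)
    (i : Q.M) (s : Big Q) (hs : s ≤ p.s) :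
    ∃ s' ≤ s, ∃ d : Data Q, Good p U i s s' d := by
  have hp'p : p.lower s hs ≤ p := ⟨hs, le_rfl⟩
  obtain ⟨ξ, hiξ, hT0⟩ := many2 {b : Q.K | ∃ q ≤ p.lower s hs, U q b} (hbig _ hp'p) (max i s.dl)
  set T0 : Set Q.K := {b : Q.K | Q.lev b = ξ ∧ b ∈ {b : Q.K | ∃ q ≤ p.lower s hs, U q b}} with hT0def
  have hq0 : ∀ b : Q.K, ∃ r : Cond Q, b ∈ T0 → r ≤ p.lower s hs ∧ U r b ∧ b ∈ r.x.X := by
    intro b
    by_cases hb : b ∈ T0
    · obtain ⟨_, q, hq, hU⟩ := hb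
      obtain ⟨r, hr, hbr⟩ := ext_vertex q b
      exact ⟨r, fun _ => ⟨hr.trans hq, hUd q r b hU hr, hbr⟩⟩
    · exact ⟨p, fun h => absurd h hb⟩
  choose q hq using hq0
  obtain ⟨T1, Y0, hT10, hT1, hY0, hdelta, hdl, hga, ht, hX, hG⟩ := stage T0 hT0 q
  have hθc : ℵ₀ ≤ Q.c := Q.hθ.trans Q.hθc
  have hc2 : Q.c ≤ (2 : Cardinal.{0}) ^ Q.c := (cantor Q.c).le
  have hinf : ℵ₀ ≤ (2 : Cardinal.{0}) ^ Q.c := hθc.trans hc2
  have hM2 : #Q.M ≤ (2 : Cardinal.{0}) ^ Q.c := by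
    rw [Q.hM]
    exact Order.succ_le_of_lt (cantor Q.c)
  obtain ⟨T2, tt, hT21, hT2, htt⟩ := pigeon hinf T1 hT1 (fun b => (q b).s.t b) hM2
  have hY0c : #Y0 ≤ Q.c := by
    have hne : T1.Nonempty := by
      rw [Set.nonempty_iff_ne_empty]
      rintro rfl
      apply hT1
      simp
    obtain ⟨e, he⟩ := hne
    exact (mk_le_mk_of_subset (hY0 e he)).trans (q e).s.hY
  have hT3 : ¬ #(T2 \ Y0 : Set Q.K) ≤ (2 : Cardinal.{0}) ^ Q.c := by
    intro h
    apply hT2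
    have h1 : T2 ⊆ (T2 \ Y0) ∪ Y0 := by
      intro x hx
      by_cases hy : x ∈ Y0
      · exact Or.inr hy
      · exact Or.inl ⟨hx, hy⟩
    calc #T2 ≤ #((T2 \ Y0 : Set Q.K) ∪ Y0 : Set Q.K) := mk_le_mk_of_subset h1
      _ ≤ #(T2 \ Y0 : Set Q.K) + #Y0 := mk_union_le _ _
      _ ≤ (2 : Cardinal.{0}) ^ Q.c + (2 : Cardinal.{0}) ^ Q.c :=
          add_le_add h (hY0c.trans hc2)
      _ = (2 : Cardinal.{0}) ^ Q.c := add_eq_self hinf
  have hnt : (T2 \ Y0).Nontrivial := by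
    by_contra hns
    rw [Set.not_nontrivial_iff] at hns
    apply hT3
    have h1 : #(T2 \ Y0 : Set Q.K) ≤ 1 := by
      rw [Cardinal.mk_le_one_iff_set_subsingleton]
      exact hns
    exact h1.trans (one_le_aleph0.trans hinf)
  obtain ⟨e0, he0, e1, he1, hne01⟩ := hnt
  have hT3T1 : ∀ e ∈ T2 \ Y0, e ∈ T1 := fun e he => hT21 he.1
  have hT3T0 : ∀ e ∈ T2 \ Y0, e ∈ T0 := fun e he => hT10 (hT21 he.1)
  have hle : ∀ e ∈ T2 \ Y0, (q e).s ≤ s ∧ (q e).x ≤ p.x := fun e he => (hq e (hT3T0 e he)).1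
  let s1 : Big Q :=
    { Y := Y0
      dl := (q e0).s.dl
      ga := (q e0).s.ga
      t := (q e0).s.t
      hY := hY0c
      hlev := fun a ha => (q e0).s.hlev a (hY0 e0 (hT3T1 e0 he0) ha) }
  have hs1 : s1 ≤ s := by
    have h0 := (hle e0 he0).1
    have h1 := (hle e1 he1).1
    refine ⟨?_, h0.2⟩
    show s.Y ⊆ Y0
    rw [← hdelta e0 (hT3T1 e0 he0) e1 (hT3T1 e1 he1) hne01]
    exact Set.subset_inter h0.1 h1.1
  obtain ⟨s', hs's1, hs'Y, hs'dl, hs'ga, hs't⟩ := ext_raise s1 tt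
  have hs'Y' : s'.Y = Y0 := hs'Y
  have hs'dl' : s'.dl = (q e0).s.dl := hs'dl
  refine ⟨s', hs's1.trans hs1, ⟨ξ, tt, (q e0).x.X ∩ Y0, (q e0).x.G,
    (fun b => (b, q b)) '' (T2 \ Y0)⟩, ?_⟩
  constructor
  · exact (le_max_left _ _).trans hiξ
  · exact (le_max_right _ _).trans hiξ
  · show ξ < s'.dl
    rw [hs'dl', ← (hT3T0 e0 he0).1]
    exact (q e0).s.hlev e0 ((q e0).sub (hq e0 (hT3T0 e0 he0)).2.2)
  · show ¬ #((fun b => (b, q b)) '' (T2 \ Y0) : Set (Q.K × Cond Q)) ≤ (2 : Cardinal.{0}) ^ Q.c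
    have hinj' : Function.Injective (fun b : Q.K => (b, q b)) := fun a b h => congrArg Prod.fst h
    rw [mk_image_eq hinj']
    exact hT3
  · rintro _ ⟨b, hb, rfl⟩
    exact hle b hb
  · rintro _ ⟨b, hb, rfl⟩
    exact (hT3T0 b hb).1
  · rintro _ ⟨b, hb, rfl⟩
    exact (hq b (hT3T0 b hb)).2.1
  · rintro _ ⟨b, hb, rfl⟩
    exact (hq b (hT3T0 b hb)).2.2
  · rintro _ ⟨b, hb, rfl⟩
    rw [hs'Y']
    exact hb.2
  · rintro _ ⟨b, hb, rfl⟩
    exact htt b hb.1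
  · rintro _ ⟨b, hb, rfl⟩
    rw [hs'dl']
    exact hdl b (hT3T1 b hb) e0 (hT3T1 e0 he0)
  · rintro _ ⟨b, hb, rfl⟩
    rw [hs'Y']
    exact hY0 b (hT3T1 b hb)
  · rintro _ ⟨b, hb, rfl⟩ _ ⟨b', hb', rfl⟩ hne
    rw [hs'Y']
    refine hdelta b (hT3T1 b hb) b' (hT3T1 b' hb') ?_
    rintro rfl
    exact hne rfl
  · rintro _ ⟨b, hb, rfl⟩ a ha η hη
    rw [hs'Y'] at ha
    have h1 := hs'ga a ha η (by rw [← hs'dl]; exact hη)
    rw [h1]
    show (q b).s.ga a η = (q e0).s.ga a η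
    refine hga b (hT3T1 b hb) e0 (hT3T1 e0 he0) a ha η ?_
    rw [hdl b (hT3T1 b hb) e0 (hT3T1 e0 he0), ← hs'dl']
    exact hη
  · rintro _ ⟨b, hb, rfl⟩ a ha
    rw [hs'Y'] at ha
    show (q b).s.t a ≤ s'.t a
    rw [ht b (hT3T1 b hb) e0 (hT3T1 e0 he0) a ha]
    exact hs's1.2.2.2.2 a ha
  · intro a ha
    rw [hs'Y'] at ha
    exact hs't a ha
  · rw [hs'Y']
    exact Set.inter_subset_right
  · rintro _ ⟨b, hb, rfl⟩
    rw [hs'Y']
    ext a
    constructor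
    · rintro ⟨h1, h2⟩
      exact ⟨(hX b (hT3T1 b hb) e0 (hT3T1 e0 he0) a h2).mp h1, h2⟩
    · rintro ⟨h1, h2⟩
      exact ⟨(hX b (hT3T1 b hb) e0 (hT3T1 e0 he0) a h2).mpr h1, h2⟩
  · exact (mk_le_mk_of_subset Set.inter_subset_left).trans_lt (q e0).x.hX
  · rintro _ ⟨b, hb, rfl⟩ a ha a' ha'
    exact hG b (hT3T1 b hb) e0 (hT3T1 e0 he0) a ha.2 a' ha'.2

/-- The end of the main construction: two members of the constructed families have a common extension with an edge. -/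
theorem final (p : Cond Q) (U : Cond Q → Q.K → Prop) (s s' : Q.M → Big Q) (d : Q.M → Data Q)
    (h0 : ∀ i, s i ≤ p.s) (h1 : ∀ i, s' i ≤ s i) (h2 : ∀ i j, i < j → s j ≤ s' i)
    (h3 : ∀ i, Good p U i (s i) (s' i) (d i)) :
    ∃ (a b : Q.K) (qa qb r : Cond Q), r ≤ qa ∧ r ≤ qb ∧ qa.s ≤ p.s ∧ qa.x ≤ p.x ∧ U qa a ∧ U qb b ∧ r.x.G a b := by
  have hc0 : ℵ₀ ≤ Q.c := Q.hθ.trans Q.hθc
  have huniv : ¬ #(univ : Set Q.M) ≤ Q.c := by
    rw [mk_univ, Q.hM]
    exact not_le.2 (Order.lt_succ Q.c)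
  obtain ⟨T1, R, -, hT1, hR⟩ := delta_sys hc0 Q.hθc Q.hc (univ : Set Q.M) huniv
    (fun i => (d i).R) (fun i => (h3 i).Rc)
  have hIic : ∀ x : Q.M, #(Iic x) ≤ Q.c := by
    intro x
    have : Iic x = insert x (Iio x) := by
      ext y; simp [le_iff_eq_or_lt]
    rw [this]
    exact (mk_insert_le).trans (add_le_of_le hc0 (Q.hMs x) (one_le_aleph0.trans hc0))
  -- a subset that is not small has an element beyond a given one
  have hbeyond : ∀ (T : Set Q.M), ¬ #T ≤ Q.c → ∀ x, ∃ y ∈ T, x < y := by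
    intro T hT x
    by_contra hcon
    push Not at hcon
    exact hT ((mk_le_mk_of_subset fun y hy => hcon y hy).trans (hIic x))
  have hRlt : #R < Q.θ := by
    obtain ⟨x, hx, -⟩ : ∃ x ∈ T1, True := by
      by_contra hcon
      push Not at hcon
      apply hT1
      have : T1 = ∅ := by
        ext y; simp only [mem_empty_iff_false, iff_false]; exact fun hy => hcon y hy
      rw [this, mk_eq_zero]
      exact zero_le
    obtain ⟨y, hy, hxy⟩ := hbeyond T1 hT1 x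
    have h := hR x hx y hy hxy.ne
    exact lt_of_le_of_lt (mk_le_mk_of_subset (by rw [← h]; exact inter_subset_left)) (h3 x).Rc
  have hCard : #(R → R → Prop) ≤ Q.c := by
    have e : #(R → R → Prop) = 2 ^ (#R * #R) := by
      rw [power_mul]
      simp
    rw [e]
    have h1 : #R * #R < Q.θ := mul_lt_of_lt Q.hθ hRlt hRlt
    exact (power_le_power_right ((natCast_lt_aleph0 (n := 2)).le.trans hc0)).trans (Q.hc _ h1)
  obtain ⟨T2, z, hT21, hT2, hz⟩ := pigeon hc0 T1 hT1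
    (fun i => fun (a b : R) => (d i).g0 a b) hCard
  obtain ⟨i, hiT, hi⟩ : ∃ i ∈ T2, ∀ w ∈ R, Q.lev w < i := by
    by_contra hcon
    push Not at hcon
    apply hT2
    have hsub : T2 ⊆ ⋃ w : R, Iic (Q.lev w) := by
      intro y hy
      obtain ⟨w, hw, hwy⟩ := hcon y hy
      exact mem_iUnion.2 ⟨⟨w, hw⟩, hwy⟩
    refine (mk_le_mk_of_subset hsub).trans ((mk_iUnion_le _).trans ?_)
    refine (mul_le_mul' (hRlt.le.trans Q.hθc) (ciSup_le' fun w => hIic _)).trans ?_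
    rw [mul_eq_self hc0]
  obtain ⟨j, hjT, hij⟩ := hbeyond T2 hT2 i
  have hRij : (d i).R ∩ (d j).R = R := hR i (hT21 hiT) j (hT21 hjT) hij.ne
  have hg0 : ∀ a ∈ R, ∀ b ∈ R, ((d i).g0 a b ↔ (d j).g0 a b) := by
    intro a ha b hb
    have h1 := (hz i hiT).trans (hz j hjT).symm
    have h2 := congrFun (congrFun h1 ⟨a, ha⟩) ⟨b, hb⟩
    exact iff_of_eq h2
  obtain ⟨eb, heb⟩ : (d j).E.Nonempty := by
    by_contra hcon
    rw [not_nonempty_iff_eq_empty] at hcon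
    apply (h3 j).big
    rw [hcon, mk_eq_zero]
    exact zero_le
  have hbsj := ((h3 j).le eb heb).1
  have hbs' : eb.2.s ≤ s' i := hbsj.trans (h2 i j hij)
  have hYij : (s' i).Y ⊆ (s' j).Y := ((h1 j).trans (h2 i j hij)).1
  obtain ⟨ea, hea, hint⟩ : ∃ ea ∈ (d i).E, ea.2.s.Y ∩ eb.2.s.Y ⊆ (s' i).Y := by
    by_contra hcon
    push Not at hcon
    have hcon' : ∀ e : (d i).E, ∃ y : eb.2.s.Y, (y : Q.K) ∈ e.1.2.s.Y ∧ (y : Q.K) ∉ (s' i).Y := by
      intro e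
      obtain ⟨y, hy, hy'⟩ := not_subset.1 (hcon e.1 e.2)
      exact ⟨⟨y, hy.2⟩, hy.1, hy'⟩
    choose f hf1 hf2 using hcon'
    have hinj : Function.Injective f := by
      intro e e' hee
      by_contra hne
      apply hf2 e
      rw [← (h3 i).disj e.1 e.2 e'.1 e'.2 (fun h => hne (Subtype.ext h))]
      exact ⟨hf1 e, by rw [hee]; exact hf1 e'⟩
    apply (h3 i).big
    exact (mk_le_of_injective hinj).trans (eb.2.s.hY.trans (cantor _).le)
  have hc2 : ∀ w ∈ ea.2.x.X, w ∈ eb.2.x.X → w ∈ (s' i).Y ∧ w ∈ R ∧ w ∈ (d i).R ∧ w ∈ (d j).R := by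
    intro w hw hw'
    have k1 : w ∈ (s' i).Y := hint ⟨ea.2.sub hw, eb.2.sub hw'⟩
    have k2 : w ∈ (d i).R := by rw [← (h3 i).R ea hea]; exact ⟨hw, k1⟩
    have k3 : w ∈ (d j).R := by rw [← (h3 j).R eb heb]; exact ⟨hw', hYij k1⟩
    exact ⟨k1, by rw [← hRij]; exact ⟨k2, k3⟩, k2, k3⟩
  have hdlij : (s' i).dl ≤ (s j).dl := (h2 i j hij).2.1
  have hξj : (s' i).dl ≤ (d j).ξ := hdlij.trans (h3 j).sξ
  obtain ⟨-, hA⟩ := amalg ea.2 eb.2
    (by rw [(h3 i).dl ea hea, (h3 j).dl eb heb]; exact ((h1 j).trans (h2 i j hij)).2.1)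
    (by
      intro a ha ha' η hη
      have ha2 := hint ⟨ha, ha'⟩
      rw [(h3 i).dl ea hea] at hη
      rw [(h3 i).ga ea hea a ha2 η hη, hbs'.2.2.1 a ha2 η hη])
    (by
      intro a ha ha' η hη hη'
      have ha2 := hint ⟨ha, ha'⟩
      rw [(h3 i).dl ea hea] at hη
      exact ((h3 i).tle ea hea a ha2).trans (hbs'.2.2.2.1 a ha2 η hη hη'))
    (by
      intro a ha ha'
      have ha2 := hint ⟨ha, ha'⟩
      exact ((h3 i).tle ea hea a ha2).trans (hbs'.2.2.2.2 a ha2))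
    (by
      intro a ha ha' b hb hb'
      obtain ⟨-, a1, a2, a3⟩ := hc2 a ha ha'
      obtain ⟨-, b1, b2, b3⟩ := hc2 b hb hb'
      rw [(h3 i).g ea hea a a2 b b2, (h3 j).g eb heb a a3 b b3]
      exact hg0 a a1 b b1)
  have hlu : Q.lev ea.1 = (d i).ξ := (h3 i).lev ea hea
  have hlv : Q.lev eb.1 = (d j).ξ := (h3 j).lev eb heb
  obtain ⟨r, hr1, hr2, hr3⟩ := hA ea.1 eb.1 ((h3 i).mem ea hea) ((h3 j).mem eb heb)
    (fun h => (h3 i).nmem ea hea (hint ⟨ea.2.sub ((h3 i).mem ea hea), h⟩))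
    (fun h => (h3 j).nmem eb heb (hYij (hint ⟨h, eb.2.sub ((h3 j).mem eb heb)⟩)))
    (by rw [hlu, hlv]; exact lt_of_lt_of_le (h3 i).ξs hξj)
    (by rw [hlv, (h3 i).dl ea hea]; exact hξj)
    (by
      intro w hw hw' _ _
      obtain ⟨w1, w2, -, -⟩ := hc2 w hw hw'
      refine ⟨?_, ?_⟩
      · rw [hlu]
        exact lt_of_lt_of_le (hi w w2) (h3 i).iξ
      · rw [hlv, (h3 i).t ea hea]
        refine lt_of_lt_of_le ((h3 i).tlt w w1) (hbs'.2.2.2.1 w w1 _ hξj ?_)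
        rw [(h3 j).dl eb heb]
        exact (h3 j).ξs)
  exact ⟨ea.1, eb.1, ea.2, eb.2, r, hr1, hr2, ((h3 i).le ea hea).1.trans (h0 i),
    ((h3 i).le ea hea).2, (h3 i).u ea hea, (h3 j).u eb heb, hr3⟩

theorem reg_c (Q : Par) : ℵ₀ ≤ Q.c := Q.hθ.trans Q.hθc

theorem reg_bound (Q : Par) {ι : Type} (hι : #ι ≤ Q.c) (f : ι → Q.M) : ∃ β : Q.M, ∀ i, f i < β := by
  by_contra hcon
  push Not at hcon
  have h1 : (univ : Set Q.M) ⊆ ⋃ i, Iic (f i) := by
    intro β _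
    obtain ⟨i, hi⟩ := hcon β
    exact mem_iUnion.2 ⟨i, hi⟩
  have hI : ∀ a : Q.M, #(Iic a) ≤ Q.c := by
    intro a
    have h2 : Iic a ⊆ insert a (Iio a) := by
      intro b hb
      rcases eq_or_lt_of_le (show b ≤ a from hb) with h | h
      · exact Or.inl h
      · exact Or.inr h
    calc #(Iic a) ≤ #(insert a (Iio a) : Set Q.M) := mk_le_mk_of_subset h2
      _ ≤ #(Iio a) + 1 := mk_insert_le
      _ ≤ Q.c + 1 := by gcongr; exact Q.hMs a
      _ = Q.c := add_one_eq (reg_c Q)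
  have h3 : #Q.M ≤ Q.c := by
    calc #Q.M = #(univ : Set Q.M) := mk_univ.symm
      _ ≤ #(⋃ i, Iic (f i)) := mk_le_mk_of_subset h1
      _ ≤ #ι * ⨆ i, #(Iic (f i)) := mk_iUnion_le _
      _ ≤ Q.c * Q.c := mul_le_mul' hι (ciSup_le' fun i => hI _)
      _ = Q.c := mul_eq_self (reg_c Q)
  rw [Q.hM] at h3
  exact absurd h3 (not_le.2 (Order.lt_succ Q.c))

/-- Step A: one value. -/
theorem reg_one (p : Cond Q) (V : Cond Q → Q.M → Prop)
    (hd : ∀ q r m, V q m → r ≤ q → V r m)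
    (hfun : ∀ q ≤ p, ∀ m m', V q m → V q m' → m = m') (s0 : Big Q) (hs0 : s0 ≤ p.s) :
    ∃ s' ≤ s0, ∃ β : Q.M, ∀ q : Cond Q, q.s ≤ s' → q.x ≤ p.x → ∀ m, V q m → m < β := by
  by_contra hcon
  push Not at hcon
  obtain ⟨s, s', d, hs, hs', hss, hΦ⟩ := chain_rec (S := Big Q) (D := Cond Q × Q.M) (M := Q.M) s0
    (by
      intro i s hmon hle
      rcases isEmpty_or_nonempty (Iio i) with hne | hne
      · exact ⟨s0, le_rfl, fun j => hne.elim j⟩
      · obtain ⟨s', hs'⟩ := big_lb (Q := Q) (ι := Iio i) (Q.hMs i) s hmon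
        obtain ⟨j⟩ := hne
        exact ⟨s', (hs' j).trans (hle j), hs'⟩)
    (fun i h s s' d => s' = d.1.s ∧ d.1.x ≤ p.x ∧ V d.1 d.2 ∧ ∀ j, (h j).2 < d.2)
    (by
      intro i h s hs
      obtain ⟨β, hβ⟩ := reg_bound Q (Q.hMs i) (fun j => (h j).2)
      obtain ⟨q, hq, hqx, m, hV, hm⟩ := hcon s hs β
      exact ⟨q.s, hq, (q, m), rfl, hqx, hV, fun j => (hβ j).trans_le hm⟩)
  -- names
  have hqx : ∀ i, (d i).1.x ≤ p.x := fun i => (hΦ i).2.1
  have hV : ∀ i, V (d i).1 (d i).2 := fun i => (hΦ i).2.2.1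
  have hm : ∀ i j, i < j → (d i).2 < (d j).2 := fun i j hij => (hΦ j).2.2.2 ⟨i, hij⟩
  have hqs : ∀ i, s' i = (d i).1.s := fun i => (hΦ i).1
  have hqq : ∀ i j, i < j → (d j).1.s ≤ (d i).1.s := by
    intro i j hij
    rw [← hqs, ← hqs]
    exact (hs' j).trans (hss i j hij)
  have hqp : ∀ i, (d i).1 ≤ p := by
    intro i
    refine ⟨?_, hqx i⟩
    rw [← hqs]
    exact ((hs' i).trans (hs i)).trans hs0
  -- delta system
  have huniv : ¬ #(univ : Set Q.M) ≤ Q.c := by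
    rw [mk_univ, Q.hM]
    exact not_le.2 (Order.lt_succ Q.c)
  obtain ⟨T', R, -, hT', hR⟩ := delta_sys (reg_c Q) Q.hθc Q.hc (univ : Set Q.M) huniv
    (fun i => (d i).1.x.X) (fun i => (d i).1.x.hX)
  have hR' : ∀ i ∈ T', ∀ j ∈ T', i ≠ j → (d i).1.x.X ∩ (d j).1.x.X = R := hR
  -- two distinct elements of a big set
  have htwo : ∀ A : Set Q.M, ¬ #A ≤ Q.c → ∃ i ∈ A, ∃ j ∈ A, i < j := by
    intro A hA
    by_contra hno
    push Not at hno
    apply hA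
    have hsub : A.Subsingleton := by
      intro a ha b hb
      exact le_antisymm (hno b hb a ha) (hno a ha b hb)
    haveI := hsub.coe_sort
    exact (mk_le_one_iff_set_subsingleton.2 hsub).trans (one_le_aleph0.trans (reg_c Q))
  have hRθ : #R < Q.θ := by
    obtain ⟨i, hi, j, hj, hij⟩ := htwo T' hT'
    have : R ⊆ (d i).1.x.X := by
      rw [← hR' i hi j hj hij.ne]
      exact inter_subset_left
    exact (mk_le_mk_of_subset this).trans_lt (d i).1.x.hX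
  have hC : #(Set (R × R)) ≤ Q.c := by
    rw [mk_set, ← mul_def]
    have h1 : #R * #R < Q.θ := mul_lt_of_lt Q.hθ hRθ hRθ
    calc (2 : Cardinal) ^ (#R * #R) ≤ Q.c ^ (#R * #R) :=
          power_le_power_right ((nat_lt_aleph0 2).le.trans (reg_c Q))
      _ ≤ Q.c := Q.hc _ h1
  obtain ⟨T'', z, hsub, hT'', hz⟩ := pigeon (reg_c Q) T' hT'
    (fun i => ({ab : R × R | (d i).1.x.G ab.1 ab.2} : Set (R × R))) hC
  obtain ⟨i, hi, j, hj, hij⟩ := htwo T'' hT''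
  have hRij := hR' i (hsub hi) j (hsub hj) hij.ne
  have hle := hqq i j hij
  obtain ⟨⟨r, hr1, hr2⟩, -⟩ := amalg (d i).1 (d j).1 hle.2.1
    (fun a ha _ η hη => (hle.2.2.1 a ha η hη).symm)
    (fun a ha _ η h1 h2 => hle.2.2.2.1 a ha η h1 h2)
    (fun a ha _ => hle.2.2.2.2 a ha)
    (by
      intro a ha ha' b hb hb'
      have haR : a ∈ R := hRij ▸ ⟨ha, ha'⟩
      have hbR : b ∈ R := hRij ▸ ⟨hb, hb'⟩
      have h1 := (hz i hi).trans (hz j hj).symm
      have h2 := Set.ext_iff.1 h1 (⟨a, haR⟩, ⟨b, hbR⟩)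
      exact h2)
  have e := hfun r (hr1.trans (hqp i)) _ _ (hd _ r _ (hV i) hr1) (hd _ r _ (hV j) hr2)
  exact absurd e (hm i j hij).ne

/-- The extension has no unbounded function from a set of size at most `c` into `M`; the bound can be forced by
strengthening the big part only. -/
theorem reg (p : Cond Q) {T : Type} (hT : #T ≤ Q.c) (V : Cond Q → T → Q.M → Prop)
    (hd : ∀ q r x m, V q x m → r ≤ q → V r x m)
    (hfun : ∀ q ≤ p, ∀ x m m', V q x m → V q x m' → m = m') :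
    ∃ (s : Big Q) (h : s ≤ p.s) (β : Q.M), ∀ q ≤ p.lower s h, ∀ x m, V q x m → m < β := by
  classical
  rcases isEmpty_or_nonempty T with hT0 | hT0
  · have hMne : Nonempty Q.M := by
      rw [← mk_ne_zero_iff, Q.hM]
      exact (lt_of_le_of_lt zero_le (Order.lt_succ Q.c)).ne'
    obtain ⟨β⟩ := hMne
    exact ⟨p.s, le_rfl, β, fun q _ x => hT0.elim x⟩
  letI : LinearOrder T := IsWellOrder.linearOrder (WellOrderingRel : T → T → Prop)
  haveI : WellFoundedLT T := ⟨(inferInstance : IsWellFounded T WellOrderingRel).wf⟩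
  have hseg : ∀ i : T, #(Iio i) ≤ Q.c := fun i => (mk_set_le _).trans hT
  obtain ⟨s, s', d, hs, hs', hss, hΦ⟩ := chain_rec (S := Big Q) (D := Q.M) (M := T) p.s
    (by
      intro i s hmon hle
      rcases isEmpty_or_nonempty (Iio i) with hne | hne
      · exact ⟨p.s, le_rfl, fun j => hne.elim j⟩
      · obtain ⟨s', hs'⟩ := big_lb (Q := Q) (ι := Iio i) (hseg i) s hmon
        obtain ⟨j⟩ := hne
        exact ⟨s', (hs' j).trans (hle j), hs'⟩)
    (fun i _ _ s' β => ∀ q : Cond Q, q.s ≤ s' → q.x ≤ p.x → ∀ m, V q i m → m < β)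
    (by
      intro i h s hs
      obtain ⟨s', h1, β, h2⟩ := reg_one p (fun q m => V q i m) (fun q r m h hr => hd q r i m h hr)
        (fun q hq m m' => hfun q hq i m m') s hs
      exact ⟨s', h1, β, h2⟩)
  obtain ⟨s1, hs1⟩ := big_lb (Q := Q) (ι := T) hT s' (by
    intro i j hij
    rcases eq_or_lt_of_le hij with rfl | h
    · exact le_rfl
    · exact (hs' j).trans (hss i j h))
  obtain ⟨β, hβ⟩ := reg_bound Q hT d
  have hle : s1 ≤ p.s := by
    obtain ⟨i⟩ := hT0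
    exact ((hs1 i).trans (hs' i)).trans (hs i)
  refine ⟨s1, hle, β, fun q hq x m hVm => ?_⟩
  exact (hΦ x q (hq.1.trans (hs1 x)) hq.2 m hVm).trans (hβ x)

/-- There is no condition forcing an infinite increasing clique `e 0, e 1, ...` all of whose members are joined to `b`. -/
theorem no_seq (p : Cond Q) (b : Q.K) (U : Cond Q → ℕ → Q.K → Prop)
    (hd : ∀ q r n a, U q n a → r ≤ q → U r n a)
    (htot : ∀ q ≤ p, ∀ n, ∃ r ≤ q, ∃ a, U r n a)
    (h1 : ∀ q ≤ p, ∀ n a a', U q n a → U q (n + 1) a' → ∃ r ≤ q, r.x.G a a')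
    (h2 : ∀ q ≤ p, ∀ n a, U q n a → ∃ r ≤ q, r.x.G a b) : False := by
  have hpers : ∀ {r r' : Cond Q}, r' ≤ r → ∀ {u w : Q.K}, r.x.G u w → r'.x.G u w := by
    intro r r' h u w hg
    have hh := h.2
    exact (hh.2 u (r.x.hG _ _ hg).1 w (r.x.hG _ _ hg).2.1).2 hg
  let V : Set Q.M := {v | ∃ r ≤ p, ∃ n a, U r n a ∧ r.x.G a b ∧ r.s.ga a (Q.lev b) = v}
  have hne : V.Nonempty := by
    obtain ⟨r, hr, a, ha⟩ := htot p le_rfl 0
    obtain ⟨r', hr', hg⟩ := h2 r hr 0 a ha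
    exact ⟨_, r', hr'.trans hr, 0, a, hd r r' 0 a ha hr', hg, rfl⟩
  obtain ⟨v, ⟨r, hr, n, a, hU, hg, hv⟩, hmin⟩ := (wellFounded_lt (α := Q.M)).has_min V hne
  obtain ⟨r1, hr1, a', ha'⟩ := htot r hr (n + 1)
  obtain ⟨r2, hr2, hg2⟩ := h1 r1 (hr1.trans hr) n a a' (hd _ _ _ _ hU hr1) ha'
  obtain ⟨r3, hr3, hg3⟩ := h2 r2 (hr2.trans (hr1.trans hr)) (n + 1) a' (hd _ _ _ _ ha' hr2)
  have h3p : r3 ≤ p := hr3.trans (hr2.trans (hr1.trans hr))
  have h3r : r3 ≤ r := hr3.trans (hr2.trans hr1)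
  have htri := r3.tri a a' b (hpers hr3 hg2) (hpers h3r hg) hg3
  have heq : r3.s.ga a (Q.lev b) = r.s.ga a (Q.lev b) :=
    h3r.1.2.2.1 a (r.sub (r.x.hG _ _ hg).1) _ (r.s.hlev b (r.sub (r.x.hG _ _ hg).2.1))
  refine hmin _ ⟨r3, h3p, n + 1, a', hd _ _ _ _ (hd _ _ _ _ ha' hr2) hr3, hg3, rfl⟩ ?_
  rw [← hv, ← heq]
  exact htri

/-- Fewer than `θ` values can be decided at once. -/
theorem decide_fun {X Y : Type} (hX : #X < Q.θ) (p : Cond Q) (V : Cond Q → X → Y → Prop)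
    (hd : ∀ q r x y, V q x y → r ≤ q → V r x y)
    (htot : ∀ q ≤ p, ∀ x, ∃ r ≤ q, ∃ y, V r x y) : ∃ q ≤ p, ∃ f : X → Y, ∀ x, V q x (f x) := by
  classical
  let _ : LinearOrder X := linearOrderOfSTO (WellOrderingRel : X → X → Prop)
  have _ : WellFoundedLT X := ⟨(WellOrderingRel.isWellOrder (α := X)).wf⟩
  obtain ⟨s, s', d, h1, h2, h3, h4⟩ := chain_rec (S := Cond Q) (D := Y) (M := X) p
    (by
      intro i s hs hp
      by_cases hne : Nonempty (Iio i)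
      · obtain ⟨q, hq⟩ := cond_lb (ι := Iio i) (lt_of_le_of_lt (mk_set_le _) hX) s hs
        obtain ⟨j⟩ := hne
        exact ⟨q, (hq j).trans (hp j), hq⟩
      · exact ⟨p, le_rfl, fun j => absurd ⟨j⟩ hne⟩)
    (fun x _ _ s' y => V s' x y)
    (by
      intro i _ s hs
      obtain ⟨r, hr, y, hy⟩ := htot s hs i
      exact ⟨r, hr, y, hy⟩)
  by_cases hne : Nonempty X
  · obtain ⟨q, hq⟩ := cond_lb (ι := X) hX s' (by
      intro i j hij
      rcases hij.eq_or_lt with h | h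
      · rw [h]
      · exact (h2 j).trans (h3 i j h))
    obtain ⟨x0⟩ := hne
    exact ⟨q, (hq x0).trans ((h2 x0).trans (h1 x0)), d, fun x => hd _ _ _ _ (h4 x) (hq x)⟩
  · exact ⟨p, le_rfl, d, fun x => absurd ⟨x⟩ hne⟩

/-- Cardinals above `2 ^ c` are preserved. -/
theorem no_onto_big {X Y : Type} (hXY : #X < #Y) (hY : (2 : Cardinal.{0}) ^ Q.c < #Y) (p : Cond Q)
    (V : Cond Q → X → Y → Prop) (hd : ∀ q r x y, V q x y → r ≤ q → V r x y)
    (hfun : ∀ q ≤ p, ∀ x y y', V q x y → V q x y' → y = y')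
    (honto : ∀ y, ∀ q ≤ p, ∃ r ≤ q, ∃ x, V r x y) : False := by
  choose r hr x hV using fun y => honto y p le_rfl
  have hT : ∀ a : X, #{y : Y | x y = a} ≤ (2 : Cardinal.{0}) ^ Q.c := by
    intro a
    by_contra hc
    obtain ⟨y, hy, y', hy', hne, q, hq, hq'⟩ := cc {y : Y | x y = a} hc r
    apply hne
    have e : x y = a := hy
    have e' : x y' = a := hy'
    have h1 := hd _ q _ _ (hV y) hq
    have h2 := hd _ q _ _ (hV y') hq'
    rw [e] at h1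
    rw [e'] at h2
    exact hfun q (hq.trans (hr y)) a y y' h1 h2
  have h0 : ℵ₀ ≤ #Y :=
    (Q.hθ.trans Q.hθc).trans ((cantor Q.c).le.trans hY.le)
  have h1 : #Y ≤ #X * (2 : Cardinal.{0}) ^ Q.c := by
    calc #Y = #(Σ a : X, {y : Y // x y = a}) := (mk_congr (Equiv.sigmaFiberEquiv x)).symm
      _ = Cardinal.sum (fun a : X => #{y : Y // x y = a}) := mk_sigma _
      _ ≤ Cardinal.sum (fun _ : X => (2 : Cardinal.{0}) ^ Q.c) := sum_le_sum _ _ hT
      _ = #X * (2 : Cardinal.{0}) ^ Q.c := by simp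
  exact absurd (h1.trans_lt (mul_lt_of_lt h0 hXY hY)) (lt_irrefl _)


theorem bdd_aux {A : Type} [LinearOrder A] (κ : Cardinal.{0}) (hκ : ℵ₀ ≤ κ) (hA : κ < #A)
    (hI : ∀ i : A, #(Iio i) ≤ κ) {T : Type} (hT : #T ≤ κ) (f : T → A) : ∃ m, ∀ t, f t < m := by
  by_contra hcon
  push Not at hcon
  have hIc : ∀ i : A, #(Iic i) ≤ κ := by
    intro i
    rw [← Set.Iio_insert]
    refine (Cardinal.mk_insert_le).trans ?_
    calc #(Iio i) + 1 ≤ κ + 1 := by gcongr; exact hI i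
      _ = κ := Cardinal.add_one_eq hκ
  have hU : (⋃ t, Iic (f t)) = (Set.univ : Set A) := by
    ext m
    simp only [mem_iUnion, mem_Iic, mem_univ, iff_true]
    exact hcon m
  have h1 : #A ≤ κ := by
    calc #A = #(Set.univ : Set A) := Cardinal.mk_univ.symm
      _ = #(⋃ t, Iic (f t) : Set A) := by rw [hU]
      _ ≤ Cardinal.sum fun t => #(Iic (f t)) := Cardinal.mk_iUnion_le_sum_mk
      _ ≤ Cardinal.sum fun _ : T => κ := Cardinal.sum_le_sum _ _ fun t => hIc _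
      _ = #T * κ := by simp
      _ ≤ κ * κ := by gcongr
      _ = κ := Cardinal.mul_eq_self hκ
  exact absurd hA (not_lt.2 h1)

/-- all members of `σ` are below `b` and forced to be adjacent to `b` -/
def Ng (c : Q.M → Q.M → Cond Q → Prop) (σ : Set Q.M) (b : Q.M) (q : Cond Q) : Prop :=
  ∀ a ∈ σ, a < b ∧ c a b q

theorem exists_J (c : Q.M → Q.M → Cond Q → Prop)
    (hc : ∀ a b q r, c a b q → r ≤ q → c a b r) (σ : Set Q.M) :
    ∃ J : Q.M → Cond Q → Prop,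
      (∀ a q r, J a q → r ≤ q → J a r) ∧ (∀ b q, J b q → Ng c σ b q) ∧
      (∀ a b q, J a q → J b q → a < b → ¬ c a b q) ∧
      (∀ b q, Ng c σ b q → ¬ J b q →
        ∃ r ≤ q, ∃ a, J a r ∧ ((a < b ∧ c a b r) ∨ (b < a ∧ c b a r))) := by
  obtain ⟨m, hm⟩ := zorn_subset {J : Set (Q.M × Cond Q) |
    (∀ a q r, (a, q) ∈ J → r ≤ q → (a, r) ∈ J) ∧ (∀ b q, (b, q) ∈ J → Ng c σ b q) ∧
      (∀ a b q, (a, q) ∈ J → (b, q) ∈ J → a < b → ¬ c a b q)} (by
    intro C hC hch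
    refine ⟨⋃₀ C, ⟨?_, ?_, ?_⟩, fun s hs => subset_sUnion_of_mem hs⟩
    · rintro a q r ⟨J, hJ, haq⟩ hr
      exact ⟨J, hJ, (hC hJ).1 a q r haq hr⟩
    · rintro b q ⟨J, hJ, haq⟩
      exact (hC hJ).2.1 b q haq
    · rintro a b q ⟨J, hJ, haq⟩ ⟨J', hJ', hbq⟩ hab
      rcases hch.total hJ hJ' with h | h
      · exact (hC hJ').2.2 a b q (h haq) hbq hab
      · exact (hC hJ).2.2 a b q haq (h hbq) hab)
  obtain ⟨h1, h2, h3⟩ := hm.prop
  refine ⟨fun a q => (a, q) ∈ m, h1, h2, h3, ?_⟩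
  intro b q hN hnot
  by_contra hcon
  push Not at hcon
  apply hnot
  have hsub : m ∪ {x | x.1 = b ∧ x.2 ≤ q} ⊆ m := by
    apply hm.le_of_ge _ subset_union_left
    refine ⟨?_, ?_, ?_⟩
    · rintro a r r' (h | ⟨h, h'⟩) hr
      · exact Or.inl (h1 a r r' h hr)
      · exact Or.inr ⟨h, hr.trans h'⟩
    · rintro a r (h | ⟨h, h'⟩)
      · exact h2 a r h
      · simp only at h h'
        subst h
        intro x hx
        exact ⟨(hN x hx).1, hc _ _ _ _ (hN x hx).2 h'⟩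
    · rintro a a' r (h | ⟨h, h'⟩) (k | ⟨k, k'⟩) haa'
      · exact h3 a a' r h k haa'
      · simp only at k k'
        subst k
        exact (hcon r k' a h).1 haa'
      · simp only at h h'
        subst h
        exact (hcon r h' a' k).2 haa'
      · simp only at h k
        rw [h, k] at haa'
        exact absurd haa' (lt_irrefl _)
  exact hsub (Or.inr ⟨rfl, le_rfl⟩)

/-- In the extension every colouring of the pairs of `M` has an unbounded homogeneous set in the colour `0` or a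
homogeneous set of size `ℵ₁` in the colour `1`. -/
theorem arrow_comb (hθ : (ℵ₁ : Cardinal.{0}) < Q.θ) (hpow : Q.c ^ (ℵ₀ : Cardinal.{0}) ≤ Q.c) (p : Cond Q)
    (c : Q.M → Q.M → Cond Q → Prop)
    (hc : ∀ a b q r, c a b q → r ≤ q → c a b r)
    (hno : ∀ J : Q.M → Cond Q → Prop, (∀ a q r, J a q → r ≤ q → J a r) →
      (∀ a b, a < b → ∀ q ≤ p, J a q → J b q → ¬ c a b q) →
      ∀ q ≤ p, ∃ r ≤ q, ∃ β, ∀ a, ∀ r' ≤ r, J a r' → a < β) :
    ∃ q ≤ p, ∃ a : (ℵ₁ : Cardinal.{0}).ord.ToType → Q.M, StrictMono a ∧ ∀ x y, x < y → c (a x) (a y) q := by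
  classical
  have hc0 : (ℵ₀ : Cardinal.{0}) ≤ Q.c := Q.hθ.trans Q.hθc
  have h1c : (ℵ₁ : Cardinal.{0}) ≤ Q.c := hθ.le.trans Q.hθc
  have hMb : ∀ {T : Type}, #T ≤ Q.c → ∀ f : T → Q.M, ∃ m, ∀ t, f t < m := by
    intro T hT f
    exact bdd_aux Q.c hc0 (by rw [Q.hM]; exact Order.lt_succ _) Q.hMs hT f
  choose J hJ1 hJ2 hJ3 hJ4 using exists_J c hc
  let Bd : Cond Q → Set Q.M → Q.M → Prop := fun q σ m => ∀ a, ∀ r ≤ q, J σ a r → a < m
  let V : Cond Q → Set Q.M → Q.M → Prop := fun q σ m => Bd q σ m ∧ ∀ r ≤ q, ∀ m' < m, ¬ Bd r σ m'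
  have hBd : ∀ q r σ m, Bd q σ m → r ≤ q → Bd r σ m := fun q r σ m h hr a r' hr' hJ =>
    h a r' (hr'.trans hr) hJ
  have hVd : ∀ q r σ m, V q σ m → r ≤ q → V r σ m := fun q r σ m h hr =>
    ⟨hBd q r σ m h.1 hr, fun r' hr' m' hm' => h.2 r' (hr'.trans hr) m' hm'⟩
  have hVf : ∀ q σ m m', V q σ m → V q σ m' → m = m' := by
    intro q σ m m' h h'
    rcases lt_trichotomy m m' with hlt | heq | hgt
    · exact absurd h.1 (h'.2 q le_rfl m hlt)
    · exact heq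
    · exact absurd h'.1 (h.2 q le_rfl m' hgt)
  have hVex : ∀ q ≤ p, ∀ σ, ∃ r ≤ q, ∃ m, V r σ m := by
    intro q hq σ
    obtain ⟨r0, hr0, β0, hβ0⟩ := hno (J σ) (hJ1 σ)
      (fun a b hab q' _ ha hb => hJ3 σ a b q' ha hb hab) q hq
    have hne : {m : Q.M | ∃ r ≤ q, Bd r σ m}.Nonempty := ⟨β0, r0, hr0, fun a r hr hJ => hβ0 a r hr hJ⟩
    have hwf : WellFounded ((· < ·) : Q.M → Q.M → Prop) := wellFounded_lt
    obtain ⟨r, hr, hrb⟩ := hwf.min_mem _ hne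
    refine ⟨r, hr, hwf.min _ hne, hrb, ?_⟩
    intro r' hr' m' hm' hb
    exact hwf.not_lt_min {m : Q.M | ∃ r ≤ q, Bd r σ m} (x := m') ⟨r', hr'.trans hr, hb⟩ hm'
  -- the chain of big parts
  obtain ⟨s, s', β, hs0, hs1, hs2, hs3⟩ := chain_rec (S := Big Q) (D := Q.M) (M := Q.M) p.s
    (by
      intro i t ht ht0
      by_cases hne : Nonempty (Iio i)
      · obtain ⟨s', hs'⟩ := big_lb (Q := Q) (ι := Iio i) (Q.hMs i) t ht
        exact ⟨s', (hs' hne.some).trans (ht0 _), hs'⟩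
      · exact ⟨p.s, le_rfl, fun j => absurd ⟨j⟩ hne⟩)
    (fun i _ _ s' β => i < β ∧ ∀ σ : Set Q.M, σ ⊆ Iio i → #σ ≤ ℵ₀ → ∀ q : Cond Q, q.s ≤ s' → q.x ≤ p.x →
      ∀ a, J σ a q → a < β)
    (by
      intro i h s hs
      have hT : #{t : Set Q.M // t ⊆ Iio i ∧ #t ≤ ℵ₀} ≤ Q.c := by
        refine (Cardinal.mk_bounded_subset_le (Iio i) ℵ₀).trans ?_
        refine le_trans ?_ hpow
        exact Cardinal.power_le_power_right (max_le (Q.hMs i) hc0)
      obtain ⟨s1, h1, β, hβ⟩ := reg (p.lower s hs) hT (fun q t m => V q t.1 m)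
        (fun q r x m hV hr => hVd q r x.1 m hV hr) (fun q _ x m m' => hVf q x.1 m m')
      obtain ⟨β', hβ'⟩ := hMb (T := Bool) (by
        rw [Cardinal.mk_bool]
        exact (Cardinal.natCast_lt_aleph0 (n := 2)).le.trans hc0) (fun x => if x then β else i)
      refine ⟨s1, h1, β', by simpa using hβ' false, ?_⟩
      intro σ hσ hσc q hq hqx a hJ
      have hqp : q ≤ p := ⟨hq.trans (h1.trans hs), hqx⟩
      obtain ⟨r, hr, m, hV⟩ := hVex q hqp σ
      have ham : a < m := hV.1 a r le_rfl (hJ1 σ a q r hJ hr)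
      have hm : m < β := hβ r (hr.trans ⟨hq, hqx⟩) ⟨σ, hσ, hσc⟩ m hV
      have hb : β < β' := by simpa using hβ' true
      exact ham.trans (hm.trans hb))
  -- the order type omega_1
  have hOm : #(ℵ₁ : Cardinal.{0}).ord.ToType = ℵ₁ := by simp
  have hOmI : ∀ i : (ℵ₁ : Cardinal.{0}).ord.ToType, #(Iio i) ≤ ℵ₀ := by
    intro i
    have h := Cardinal.mk_Iio_toType_ord_lt i
    have h2 : #(Iio i) < Order.succ ℵ₀ := by
      rw [Cardinal.succ_aleph0]
      exact h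
    exact Order.lt_succ_iff.1 h2
  have hOmb : ∀ {T : Type}, #T ≤ ℵ₀ → ∀ f : T → (ℵ₁ : Cardinal.{0}).ord.ToType, ∃ m, ∀ t, f t < m := by
    intro T hT f
    exact bdd_aux ℵ₀ le_rfl (by rw [hOm]; exact Cardinal.aleph0_lt_aleph_one) hOmI hT f
  -- the ordinal delta
  have hOmwf : WellFounded ((· < ·) : (ℵ₁ : Cardinal.{0}).ord.ToType → _ → Prop) := wellFounded_lt
  obtain ⟨f, hf⟩ : ∃ f : (ℵ₁ : Cardinal.{0}).ord.ToType → Q.M, ∀ ν μ, ν < μ → β (f ν) < f μ := by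
    have hg : ∀ (ν : (ℵ₁ : Cardinal.{0}).ord.ToType) (h : ∀ μ, μ < ν → Q.M), ∃ m, ∀ μ (hμ : μ < ν), β (h μ hμ) < m := by
      intro ν h
      obtain ⟨m, hm⟩ := hMb (T := Iio ν) ((hOmI ν).trans hc0) (fun μ => β (h μ.1 μ.2))
      exact ⟨m, fun μ hμ => hm ⟨μ, hμ⟩⟩
    choose G hG using hg
    refine ⟨hOmwf.fix G, ?_⟩
    intro ν μ hνμ
    rw [hOmwf.fix_eq G μ]
    exact hG μ (fun y _ => hOmwf.fix G y) ν hνμ
  obtain ⟨δ0, hδ0⟩ := hMb (T := (ℵ₁ : Cardinal.{0}).ord.ToType) (by rw [hOm]; exact h1c) f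
  have hwfM : WellFounded ((· < ·) : Q.M → Q.M → Prop) := wellFounded_lt
  have hne : {m : Q.M | ∀ ν, f ν < m}.Nonempty := ⟨δ0, hδ0⟩
  obtain ⟨δ, hδ1, hδ2⟩ : ∃ δ, (∀ ν, f ν < δ) ∧ ∀ i < δ, ∃ ν, i ≤ f ν := by
    refine ⟨hwfM.min _ hne, hwfM.min_mem _ hne, ?_⟩
    intro i hi
    by_contra hcon
    push Not at hcon
    exact hwfM.not_lt_min {m : Q.M | ∀ ν, f ν < m} (x := i) hcon hi
  have hcl : ∀ σ : Set Q.M, σ ⊆ Iio δ → #σ ≤ ℵ₀ → ∃ i < δ, σ ⊆ Iio i ∧ β i < δ := by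
    intro σ hσ hσc
    have h1 : ∀ x : σ, ∃ ν, x.1 ≤ f ν := fun x => hδ2 x.1 (hσ x.2)
    choose g hg using h1
    obtain ⟨ν, hν⟩ := hOmb hσc g
    obtain ⟨ν', hν'⟩ := hOmb (T := Unit) (by simp) (fun _ => ν)
    refine ⟨f ν, hδ1 ν, ?_, (hf ν ν' (hν' ())).trans (hδ1 ν')⟩
    intro x hx
    have h2 : f (g ⟨x, hx⟩) < f ν := ((hs3 _).1).trans (hf _ _ (hν ⟨x, hx⟩))
    exact (hg ⟨x, hx⟩).trans_lt h2
  -- below the condition p'
  have hbd : ∀ q ≤ p.lower (s δ) (hs0 δ), ∀ σ : Set Q.M, σ ⊆ Iio δ → #σ ≤ ℵ₀ → ∀ a, J σ a q → a < δ := by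
    intro q hq σ hσ hσc a hJ
    obtain ⟨i, hi, hσi, hβi⟩ := hcl σ hσ hσc
    have h1 : q.s ≤ s' i := hq.1.trans (hs2 i δ hi)
    exact ((hs3 i).2 σ hσi hσc q h1 hq.2 a hJ).trans hβi
  have hp' : p.lower (s δ) (hs0 δ) ≤ p := ⟨hs0 δ, le_rfl⟩
  obtain ⟨t, t', a, ht0, ht1, ht2, ht3⟩ := chain_rec (S := Cond Q) (D := Q.M)
    (M := (ℵ₁ : Cardinal.{0}).ord.ToType) (p.lower (s δ) (hs0 δ))
    (by
      intro i t ht ht0
      by_cases hne : Nonempty (Iio i)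
      · obtain ⟨s', hs'⟩ := cond_lb (Q := Q) (ι := Iio i)
          ((hOmI i).trans_lt (Cardinal.aleph0_lt_aleph_one.trans hθ)) t ht
        exact ⟨s', (hs' hne.some).trans (ht0 _), hs'⟩
      · exact ⟨_, le_rfl, fun j => absurd ⟨j⟩ hne⟩)
    (fun i h q q' a => (∀ j, h j < δ ∧ c (h j) δ q) →
      (a < δ ∧ c a δ q' ∧ ∀ j, h j < a ∧ c (h j) a q'))
    (by
      intro i h q hq
      by_cases H : ∀ j, h j < δ ∧ c (h j) δ q
      · have hσ : range h ⊆ Iio δ := by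
          rintro _ ⟨j, rfl⟩
          exact (H j).1
        have hσc : #(range h) ≤ ℵ₀ := Cardinal.mk_range_le.trans (hOmI i)
        have hN : Ng c (range h) δ q := by
          rintro _ ⟨j, rfl⟩
          exact H j
        have hnJ : ¬ J (range h) δ q := fun hJ => lt_irrefl _ (hbd q hq _ hσ hσc δ hJ)
        obtain ⟨r, hr, a, hJa, hor⟩ := hJ4 (range h) δ q hN hnJ
        have haδ : a < δ := hbd r (hr.trans hq) _ hσ hσc a hJa
        have hcc : c a δ r := by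
          rcases hor with h1 | h1
          · exact h1.2
          · exact absurd h1.1 (not_lt.2 haδ.le)
        refine ⟨r, hr, a, fun _ => ⟨haδ, hcc, fun j => ?_⟩⟩
        exact hJ2 (range h) a r hJa (h j) ⟨j, rfl⟩
      · exact ⟨q, le_rfl, δ, fun h' => absurd h' H⟩)
  have key : ∀ i, a i < δ ∧ c (a i) δ (t' i) ∧ ∀ j : Iio i, a j.1 < a i ∧ c (a j.1) (a i) (t' i) := by
    intro i
    induction i using hOmwf.induction with
    | _ i ih =>
      apply ht3 i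
      intro j
      obtain ⟨h1, h2, -⟩ := ih j.1 j.2
      exact ⟨h1, hc _ _ _ _ h2 (ht2 j.1 i j.2)⟩
  have hdec : ∀ i j, i ≤ j → t' j ≤ t' i := by
    intro i j hij
    rcases hij.eq_or_lt with h | h
    · rw [h]
    · exact (ht1 j).trans (ht2 i j h)
  have : Nonempty (ℵ₁ : Cardinal.{0}).ord.ToType := by
    rw [← Cardinal.mk_ne_zero_iff, hOm]
    exact (Cardinal.aleph_pos 1).ne'
  obtain ⟨q, hq⟩ := cond_lb (Q := Q) (ι := (ℵ₁ : Cardinal.{0}).ord.ToType) (by rw [hOm]; exact hθ) t' hdec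
  refine ⟨q, ?_, a, ?_, ?_⟩
  · obtain ⟨i⟩ := (inferInstance : Nonempty (ℵ₁ : Cardinal.{0}).ord.ToType)
    exact (hq i).trans ((ht1 i).trans ((ht0 i).trans hp'))
  · intro i j hij
    exact ((key j).2.2 ⟨i, hij⟩).1
  · intro i j hij
    exact hc _ _ _ _ ((key j).2.2 ⟨i, hij⟩).2 (hq j)

theorem om_uncountable : ¬ Countable (ℵ₁ : Cardinal.{0}).ord.ToType := by
  rw [← Cardinal.mk_le_aleph0_iff, Cardinal.mk_toType, Cardinal.card_ord]
  exact not_le.2 Cardinal.aleph0_lt_aleph_one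

theorem om_Iio_countable (x : (ℵ₁ : Cardinal.{0}).ord.ToType) : (Iio x).Countable := by
  rw [← Set.countable_coe_iff, ← Cardinal.mk_le_aleph0_iff]
  exact Cardinal.lt_aleph_one_iff.1 (Cardinal.mk_Iio_toType_ord_lt x)

theorem om_bdd (A : Set (ℵ₁ : Cardinal.{0}).ord.ToType) (hA : A.Countable) : ∃ g, ∀ z ∈ A, z ≤ g := by
  by_contra hcon
  push Not at hcon
  apply om_uncountable
  have h1 : (Set.univ : Set (ℵ₁ : Cardinal.{0}).ord.ToType) ⊆ ⋃ z ∈ A, Iio z := by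
    intro g _
    obtain ⟨z, hz, hgz⟩ := hcon g
    exact Set.mem_biUnion hz hgz
  exact Set.countable_univ_iff.1 ((hA.biUnion fun z _ => om_Iio_countable z).mono h1)

/-- There is no condition forcing an uncountable clique. -/
theorem no_clique (hθ : (ℵ₁ : Cardinal.{0}) ≤ Q.θ) (p : Cond Q) (F : Cond Q → (ℵ₁ : Cardinal.{0}).ord.ToType → Q.K → Prop)
    (hd : ∀ q r x a, F q x a → r ≤ q → F r x a)
    (htot : ∀ q ≤ p, ∀ x, ∃ r ≤ q, ∃ a, F r x a)
    (hadj : ∀ q ≤ p, ∀ x y a b, x ≠ y → F q x a → F q y b → ∃ r ≤ q, r.x.G a b ∨ r.x.G b a) : False := by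
  obtain ⟨s, s', a, h0, h1, h2, h3⟩ := chain_rec (S := Cond Q) (M := (ℵ₁ : Cardinal.{0}).ord.ToType) (D := Q.K) p
    (by
      intro i s hs hs0
      rcases isEmpty_or_nonempty (Iio i) with h | h
      · exact ⟨p, le_rfl, fun j => (h.false j).elim⟩
      · obtain ⟨q, hq⟩ := cond_lb ((Cardinal.mk_Iio_toType_ord_lt i).trans_le hθ) s hs
        exact ⟨q, (hq h.some).trans (hs0 _), hq⟩)
    (fun x _ _ s' a => F s' x a)
    (by
      intro i _ s hs
      obtain ⟨r, hr, b, hb⟩ := htot s hs i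
      exact ⟨r, hr, b, hb⟩)
  have hmono : ∀ x y, x ≤ y → s' y ≤ s' x := by
    intro x y hxy
    rcases hxy.lt_or_eq with h | h
    · exact (h1 y).trans (h2 x y h)
    · rw [h]
  have hp : ∀ x, s' x ≤ p := fun x => (h1 x).trans (h0 x)
  have hF : ∀ x y, x ≤ y → F (s' y) x (a x) := fun x y hxy => hd _ _ _ _ (h3 x) (hmono x y hxy)
  have hinj : Function.Injective (fun x => Q.lev (a x)) := by
    intro x y hxy
    by_contra hne
    obtain ⟨r, _, hr⟩ := hadj (s' (max x y)) (hp _) x y (a x) (a y) hne (hF _ _ (le_max_left _ _))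
      (hF _ _ (le_max_right _ _))
    simp only at hxy
    rcases hr with hr | hr
    · exact absurd hxy (r.x.hG _ _ hr).2.2.ne
    · exact absurd hxy (r.x.hG _ _ hr).2.2.ne'
  have hinf : ∃ y, {x | Q.lev (a x) < Q.lev (a y)}.Infinite := by
    by_contra hcon
    push Not at hcon
    apply om_uncountable
    have hi : Function.Injective fun y => {x | Q.lev (a x) < Q.lev (a y)}.ncard := by
      intro y z hyz
      by_contra hne
      have key : ∀ u v, Q.lev (a u) < Q.lev (a v) →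
          {x | Q.lev (a x) < Q.lev (a u)}.ncard < {x | Q.lev (a x) < Q.lev (a v)}.ncard := by
        intro u v huv
        apply Set.ncard_lt_ncard _ (hcon v)
        refine ⟨fun x hx => lt_trans hx huv, fun h => ?_⟩
        exact lt_irrefl _ (h huv)
      simp only at hyz
      rcases lt_trichotomy (Q.lev (a y)) (Q.lev (a z)) with h | h | h
      · exact absurd hyz (key _ _ h).ne
      · exact hne (hinj h)
      · exact absurd hyz (key _ _ h).ne'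
    exact hi.countable
  obtain ⟨y, hy⟩ := hinf
  let f : ℕ → (ℵ₁ : Cardinal.{0}).ord.ToType := fun n => (hy.natEmbedding _ n : {x | Q.lev (a x) < Q.lev (a y)})
  have hfinj : Function.Injective f := fun m n h => (hy.natEmbedding _).injective (Subtype.ext h)
  have hfy : ∀ n, Q.lev (a (f n)) < Q.lev (a y) := fun n => (hy.natEmbedding _ n).2
  haveI : IsTrans _ (fun x z : (ℵ₁ : Cardinal.{0}).ord.ToType => Q.lev (a x) < Q.lev (a z)) :=
    ⟨fun _ _ _ h h' => lt_trans h h'⟩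
  obtain ⟨g, hg⟩ := exists_increasing_or_nonincreasing_subseq
    (fun x z : (ℵ₁ : Cardinal.{0}).ord.ToType => Q.lev (a x) < Q.lev (a z)) f
  have hinc : ∀ m n, m < n → Q.lev (a (f (g m))) < Q.lev (a (f (g n))) := by
    rcases hg with hg | hg
    · exact hg
    · exfalso
      have hdec : ∀ n, Q.lev (a (f (g (n + 1)))) < Q.lev (a (f (g n))) := by
        intro n
        have h4 := hg n (n + 1) (Nat.lt_succ_self n)
        rcases lt_trichotomy (Q.lev (a (f (g (n + 1))))) (Q.lev (a (f (g n)))) with h | h | h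
        · exact h
        · have := g.injective (hfinj (hinj h))
          omega
        · exact absurd h h4
      exact (RelEmbedding.wellFounded_iff_isEmpty.1 (wellFounded_lt (α := Q.M))).false
        (RelEmbedding.natGT (fun n => Q.lev (a (f (g n)))) hdec)
  obtain ⟨z, hz⟩ := om_bdd (insert y (Set.range fun n => f (g n))) ((Set.countable_range _).insert _)
  have hyz : y ≤ z := hz y (Set.mem_insert _ _)
  have huz : ∀ n, f (g n) ≤ z := fun n => hz _ (Set.mem_insert_of_mem _ ⟨n, rfl⟩)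
  have hedge : ∀ q ≤ s' z, ∀ u v, u ≤ z → v ≤ z → Q.lev (a u) < Q.lev (a v) → ∃ r ≤ q, r.x.G (a u) (a v) := by
    intro q hq u v hu hv huv
    obtain ⟨r, hr, h⟩ := hadj q (hq.trans (hp z)) u v (a u) (a v) (fun h => by rw [h] at huv; exact lt_irrefl _ huv)
      (hd _ _ _ _ (hF u z hu) hq) (hd _ _ _ _ (hF v z hv) hq)
    rcases h with h | h
    · exact ⟨r, hr, h⟩
    · exact absurd ((r.x.hG _ _ h).2.2.trans huv) (lt_irrefl _)
  refine no_seq (s' z) (a y) (fun _ n b => b = a (f (g n))) (fun _ _ _ _ h _ => h)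
    (fun q _ n => ⟨q, le_rfl, _, rfl⟩) ?_ ?_
  · rintro q hq n b b' rfl rfl
    exact hedge q hq _ _ (huz _) (huz _) (hinc n (n + 1) (Nat.lt_succ_self n))
  · rintro q hq n b rfl
    exact hedge q hq _ _ (huz _) hyz (hfy _)

theorem mem_fex' {P : Type} [Preorder P] {ι : Type} {φ : ι → Set P} {p : P} :
    p ∈ fex φ ↔ ∀ q ≤ p, ∃ r ≤ q, ∃ i, r ∈ φ i := by
  constructor
  · intro h q hq
    by_contra hcon
    push Not at hcon
    exact h q hq fun i r hr => hcon r hr i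
  · intro h q hq hcon
    obtain ⟨r, hr, i, hi⟩ := h q hq
    exact hcon i r hr hi

theorem down_fnot' {P : Type} [Preorder P] {φ : Set P} {p q : P} (h : p ∈ fnot φ) (hq : q ≤ p) :
    q ∈ fnot φ := fun r hr => h r (hr.trans hq)

theorem down_Full' {P A : Type} [Preorder P] [LinearOrder A] (H : A → Set P) (p q : P)
    (h : p ∈ Full H) (hq : q ≤ p) : q ∈ Full H := fun a => down_fnot' (h a) hq

theorem meets_cst {P : Type} [Preorder P] {c : Prop} {q : P} :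
    q ∈ meets {_r : P | c} ↔ c := by
  constructor
  · intro h
    obtain ⟨r, -, s, hs, -⟩ := h q le_rfl
    exact hs
  · intro h s _
    exact ⟨s, le_rfl, s, h, le_rfl⟩

theorem full_big {P A : Type} [Preorder P] [LinearOrder A] (hA : ∀ B : Set A, #B < #A → ∃ a : A, #B ≤ #(Iio a))
    (H : A → Set P) (p : P) (h : p ∈ Full H) : ∀ q ≤ p, ¬ #{b : A | ∃ r ≤ q, r ∈ meets (H b)} < #A := by
  intro q hq hB
  set B := {b : A | ∃ r ≤ q, r ∈ meets (H b)} with hBdef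
  obtain ⟨a, ha⟩ := hA B hB
  obtain ⟨e⟩ := (Cardinal.le_def _ _).1 ha
  classical
  let g : Iio a → A := fun x => if h : ∃ b : B, e b = x then (h.choose : A) else a
  have hg : ∀ b : B, g (e b) = b := by
    intro b
    have h1 : ∃ b' : B, e b' = e b := ⟨b, rfl⟩
    have h2 : g (e b) = (h1.choose : A) := dif_pos h1
    rw [h2, e.injective h1.choose_spec]
  have hFull := down_Full' H p q h hq a q le_rfl
  apply hFull
  rw [mem_fex']
  intro q' hq'
  refine ⟨q', le_rfl, fun x y => {_r : P | g x = y}, ⟨?_, ?_⟩, ?_⟩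
  · intro x
    rw [mem_fex']
    intro s _
    exact ⟨s, le_rfl, g x, meets_cst.2 rfl⟩
  · intro x y y' s _ hs2
    obtain ⟨⟨h1, h2⟩, h3⟩ := hs2
    have e1 : g x = y := meets_cst.1 h1
    have e2 : g x = y' := meets_cst.1 h2
    exact h3 s le_rfl (e1.symm.trans e2)
  · intro y s hs hs2
    obtain ⟨h1, h2⟩ := hs2
    have hy : y ∈ B := ⟨s, hs.trans hq', h1⟩
    apply h2 s le_rfl
    rw [mem_fex']
    intro r _
    exact ⟨r, le_rfl, e ⟨y, hy⟩, meets_cst.2 (hg ⟨y, hy⟩)⟩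

/-- membership in the defined connectives -/
theorem mem_fex {P : Type} [Preorder P] {ι : Type} {φ : ι → Set P} {p : P} :
    p ∈ fex φ ↔ ∀ q ≤ p, ∃ r ≤ q, ∃ i, r ∈ φ i := by
  exact mem_fex'

theorem down_Full {P A : Type} [Preorder P] [LinearOrder A] (H : A → Set P) (p q : P) (h : p ∈ Full H) (hq : q ≤ p) :
    q ∈ Full H := by
  exact down_Full' H p q h hq

theorem down_IsFun {P X Y : Type} [Preorder P] (R : X → Y → Set P) (p q : P) (h : p ∈ IsFun R) (hq : q ≤ p) :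
    q ∈ IsFun R := by
  exact ⟨fun x => down_fnot' (h.1 x) hq, fun x y y' => down_fnot' (h.2 x y y') hq⟩

theorem IsFun_tot {P X Y : Type} [Preorder P] (R : X → Y → Set P) (p : P) (h : p ∈ IsFun R) :
    ∀ q ≤ p, ∀ x, ∃ r ≤ q, ∃ y, r ∈ meets (R x y) := by
  intro q hq x
  exact mem_fex'.1 (h.1 x) q hq

theorem IsFun_fun {P X Y : Type} [Preorder P] (R : X → Y → Set P) (p : P) (h : p ∈ IsFun R) :
    ∀ q ≤ p, ∀ x y y', q ∈ meets (R x y) → q ∈ meets (R x y') → y = y' := by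
  intro q hq x y y' h1 h2
  by_contra hne
  exact h.2 x y y' q hq ⟨⟨h1, h2⟩, fun r _ hr => hne hr⟩

/-! ### Forced statements -/

/-- The name of the generic graph. -/
def Gn (Q : Par) : Q.K → Q.K → Set (Cond Q) := fun a b => {q | q.x.G a b}

theorem down_meets {P : Type} [Preorder P] {N : Set P} {p q : P} (h : p ∈ meets N) (hq : q ≤ p) : q ∈ meets N :=
  fun r hr => h r (hr.trans hq)

theorem meets_of_mem {P : Type} [Preorder P] {N : Set P} {p : P} (hN : ∀ q ∈ N, ∀ r ≤ q, r ∈ N) (h : p ∈ N) :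
    p ∈ meets N := fun r hr => ⟨r, le_rfl, r, hN p h r hr, le_rfl⟩

theorem mem_fimp {P : Type} [Preorder P] {φ ψ : Set P} {p : P} :
    p ∈ fimp φ ψ ↔ ∀ q ≤ p, q ∈ φ → ∃ r ≤ q, r ∈ ψ := by
  simp only [fimp, fnot, fand, Set.mem_ofPred_eq, not_and, not_forall, not_not]
  constructor
  · intro h q hq h'
    obtain ⟨r, hr, h''⟩ := h q hq h'
    exact ⟨r, hr, h''⟩
  · intro h q hq h'
    obtain ⟨r, hr, h''⟩ := h q hq h'
    exact ⟨r, hr, h''⟩

/-- Lower bounds of short chains of big parts. -/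
theorem big_lb' (s0 : Big Q) (i : Q.M) (s : Iio i → Big Q) (hs : ∀ j k, j ≤ k → s k ≤ s j) (hs0 : ∀ j, s j ≤ s0) :
    ∃ s' ≤ s0, ∀ j, s' ≤ s j := by
  rcases isEmpty_or_nonempty (Iio i) with h | h
  · exact ⟨s0, le_rfl, fun j => (h.false j).elim⟩
  · obtain ⟨s', hs'⟩ := big_lb (Q.hMs i) s hs
    exact ⟨s', (hs' h.some).trans (hs0 _), hs'⟩

theorem G_mono {p q : Cond Q} (h : q ≤ p) {a b : Q.K} (hG : p.x.G a b) : q.x.G a b := by
  have := p.x.hG a b hG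
  exact (h.2.2 a this.1 b this.2.1).2 hG

theorem not_hom0 [LinearOrder Q.K] (hA : ∀ B : Set Q.K, #B < #Q.K → ∃ a : Q.K, #B ≤ #(Iio a))
    (hmono : ∀ a b : Q.K, Q.lev a < Q.lev b → a < b) (p : Cond Q) : p ∉ Hom0 (Gn Q) := by
  intro hp
  obtain ⟨q, hq, H, hH⟩ := mem_fex.1 hp p le_rfl
  have hbig := full_big hA H q hH.1
  obtain ⟨s, s', d, h0, h1, h2, h3⟩ := chain_rec (S := Big Q) (D := Data Q) (M := Q.M) q.s
    (fun i s hs hs0 => big_lb' q.s i s hs hs0)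
    (fun i _ s s' d => Good q (fun r b => r ∈ meets (H b)) i s s' d)
    (fun i _ s hs => step q (fun r b => r ∈ meets (H b)) (fun _ _ _ h hr => down_meets h hr) hbig i s hs)
  obtain ⟨a, b, qa, qb, r, hra, hrb, hqs, hqx, hUa, hUb, hG⟩ :=
    final q (fun r b => r ∈ meets (H b)) s s' d h0 h1 h2 h3
  have hr : r ≤ q := hra.trans ⟨hqs, hqx⟩
  have h4 := mem_fimp.1 (hH.2 a b) r hr
    ⟨hmono a b (r.x.hG a b hG).2.2, down_meets hUa hra, down_meets hUb hrb⟩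
  obtain ⟨r', hr', h5⟩ := h4
  exact h5 r' le_rfl (meets_of_mem (fun q hq r hr => G_mono hr hq) (G_mono hr' hG))

theorem not_hom1 [LinearOrder Q.K] (hmono : ∀ a b : Q.K, Q.lev a < Q.lev b → a < b)
    (hθ : (ℵ₁ : Cardinal.{0}) ≤ Q.θ) (p : Cond Q) : p ∉ Hom1 (Gn Q) (ℵ₁ : Cardinal.{0}).ord.ToType := by
  intro hp
  obtain ⟨q, hq, F, hF⟩ := mem_fex.1 hp p le_rfl
  refine no_clique hθ q (fun r x a => r ∈ meets (F x a)) (fun _ _ _ _ h hr => down_meets h hr)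
    (IsFun_tot F q hF.1) ?_
  have key : ∀ q' ≤ q, ∀ x y a b, x ≠ y → q' ∈ meets (F x a) → q' ∈ meets (F y b) → a < b → ∃ r ≤ q', r.x.G a b := by
    intro q' hq' x y a b hxy hxa hyb hab
    obtain ⟨r, hr, h1⟩ := mem_fimp.1 (hF.2 x y a b) q' hq' ⟨hxy, hxa, hyb⟩
    obtain ⟨r1, hr1, h2⟩ := mem_fimp.1 h1.2 r le_rfl hab
    obtain ⟨r2, hr2, s, hs, hrs⟩ := h2 r1 le_rfl
    exact ⟨r2, hr2.trans (hr1.trans hr), G_mono hrs hs⟩
  intro q' hq' x y a b hxy hxa hyb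
  rcases lt_trichotomy a b with h | h | h
  · obtain ⟨r, hr, h1⟩ := key q' hq' x y a b hxy hxa hyb h
    exact ⟨r, hr, Or.inl h1⟩
  · obtain ⟨r, hr, h1⟩ := mem_fimp.1 (hF.2 x y a b) q' hq' ⟨hxy, hxa, hyb⟩
    exact absurd h h1.1
  · obtain ⟨r, hr, h1⟩ := key q' hq' y x b a hxy.symm hyb hxa h
    exact ⟨r, hr, Or.inr h1⟩

theorem not_arrow [LinearOrder Q.K] (hA : ∀ B : Set Q.K, #B < #Q.K → ∃ a : Q.K, #B ≤ #(Iio a))
    (hmono : ∀ a b : Q.K, Q.lev a < Q.lev b → a < b) (hθ : (ℵ₁ : Cardinal.{0}) ≤ Q.θ) (p : Cond Q) :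
    p ∈ fnot (Arrow (Cond Q) Q.K (ℵ₁ : Cardinal.{0}).ord.ToType) := by
  intro q _ hq
  exact hq (Gn Q) q le_rfl ⟨fun r _ => not_hom0 hA hmono r, fun r _ => not_hom1 hmono hθ r⟩

/-- `p` does not force `fnot (fex ...)` unless some `r ≤ p` forces an instance. -/
theorem not_fex {P : Type} [Preorder P] {ι : Type} {φ : ι → Set P} {p : P}
    (h : ∀ q ≤ p, ∀ i, q ∉ φ i) : p ∈ fnot (fex φ) := by
  intro q hq hq'
  obtain ⟨r, hr, i, hi⟩ := mem_fex.1 hq' q le_rfl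
  exact h r (hr.trans hq) i hi

theorem isReg_M (p : Cond Q) : p ∈ IsReg (Cond Q) Q.M := by
  intro a
  refine not_fex fun q _ F hF => ?_
  obtain ⟨s, h, β, hβ⟩ := reg q (T := Iio a) (Q.hMs a) (fun r x m => r ∈ meets (F x m))
    (fun _ _ _ _ h hr => down_meets h hr) (IsFun_fun F q hF.1)
  have hle : q.lower s h ≤ q := ⟨h, le_rfl⟩
  obtain ⟨r, hr, x, hx⟩ := mem_fex.1 (hF.2 β) (q.lower s h) hle
  obtain ⟨r', hr', z, hz⟩ := mem_fex.1 hx r le_rfl
  exact absurd (hβ r' (hr'.trans hr) x z hz.1) (not_lt.2 hz.2)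

theorem no_max_M (i : Q.M) : ∃ j, i < j := by
  by_contra h
  push Not at h
  have h1 : (Set.univ : Set Q.M) ⊆ insert i (Iio i) := by
    intro j _
    rcases (h j).lt_or_eq with h2 | h2
    · exact Or.inr h2
    · exact Or.inl h2
  have h2 : #Q.M ≤ Q.c := by
    rw [← Cardinal.mk_univ]
    refine (Cardinal.mk_le_mk_of_subset h1).trans (Cardinal.mk_insert_le.trans ?_)
    have h3 : ℵ₀ ≤ Q.c := Q.hθ.trans Q.hθc
    calc #(Iio i) + 1 ≤ Q.c + Q.c := add_le_add (Q.hMs i) (one_le_aleph0.trans h3)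
      _ = Q.c := add_eq_self h3
  rw [Q.hM] at h2
  exact absurd h2 (not_le.2 (Order.lt_succ Q.c))

theorem isCard_M (p : Cond Q) : p ∈ IsCard (Cond Q) Q.M := by
  intro a
  refine not_fex fun q hq F hF => ?_
  refine isReg_M q a q le_rfl ?_
  refine mem_fex.2 fun r hr => ⟨r, le_rfl, F, down_IsFun F q r hF.1 hr, fun y => ?_⟩
  obtain ⟨z, hz⟩ := no_max_M y
  refine mem_fex.2 fun r' hr' => ?_
  obtain ⟨r1, hr1, h1⟩ := mem_fimp.1 (hF.2 z) r' (hr'.trans hr) (fun s _ => ⟨s, le_rfl, s, Set.mem_univ _, le_rfl⟩)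
  obtain ⟨r2, hr2, x, hx⟩ := mem_fex.1 h1 r1 le_rfl
  exact ⟨r2, hr2.trans hr1, x, mem_fex.2 fun r3 hr3 => ⟨r3, le_rfl, z, down_meets hx hr3, hz.le⟩⟩

theorem isCard_K [LinearOrder Q.K] (hI : ∀ a : Q.K, #(Iio a) < #Q.K) (p : Cond Q) : p ∈ IsCard (Cond Q) Q.K := by
  intro a
  refine not_fex fun q hq F hF => ?_
  refine no_onto_big (hI a) Q.hK q (fun r x y => r ∈ meets (F x y)) (fun _ _ _ _ h hr => down_meets h hr)
    (IsFun_fun F q hF.1) ?_
  intro y r hr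
  obtain ⟨r1, hr1, h1⟩ := mem_fimp.1 (hF.2 y) r hr (fun s _ => ⟨s, le_rfl, s, Set.mem_univ _, le_rfl⟩)
  obtain ⟨r2, hr2, x, hx⟩ := mem_fex.1 h1 r1 le_rfl
  exact ⟨r2, hr2.trans hr1, x, hx⟩

theorem isCard_small {A : Type} [LinearOrder A] (hI : ∀ a : A, #(Iio a) < #A) (hI' : ∀ a : A, #(Iio a) < Q.θ)
    (p : Cond Q) : p ∈ IsCard (Cond Q) A := by
  intro a
  refine not_fex fun q hq F hF => ?_
  obtain ⟨r, hr, f, hf⟩ := decide_fun (hI' a) q (fun r x y => r ∈ meets (F x y))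
    (fun _ _ _ _ h hr => down_meets h hr) (IsFun_tot F q hF.1)
  have hns : ¬ Function.Surjective f := by
    intro hsurj
    exact absurd (Cardinal.mk_le_of_surjective hsurj) (not_le.2 (hI a))
  obtain ⟨y, hy⟩ := not_forall.1 hns
  obtain ⟨r1, hr1, h1⟩ := mem_fimp.1 (hF.2 y) r hr (fun s _ => ⟨s, le_rfl, s, Set.mem_univ _, le_rfl⟩)
  obtain ⟨r2, hr2, x, hx⟩ := mem_fex.1 h1 r1 le_rfl
  exact hy ⟨x, IsFun_fun F q hF.1 r2 (hr2.trans (hr1.trans hr)) x _ _ (down_meets (hf x) (hr2.trans hr1)) hx⟩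

theorem powLT_K [LinearOrder Q.K] {C : Type} (hC : #C < Q.θ)
    (hpow : ∀ a : Q.K, ∃ b : Q.K, #(C → Iio a) ≤ #(Iio b)) (p : Cond Q) : p ∈ PowLT (Cond Q) Q.K C := by
  intro a
  obtain ⟨b, hb⟩ := hpow a
  obtain ⟨g⟩ := (Cardinal.le_def _ _).1 hb
  refine mem_fex.2 fun q hq => ⟨q, le_rfl, b, mem_fex.2 fun q' hq' => ⟨q', le_rfl,
    fun i x y => {_r | ∃ f, g f = i ∧ f x = y}, fun F => ?_⟩⟩
  refine mem_fimp.2 fun r hr hF => ?_
  obtain ⟨r', hr', f, hf⟩ := decide_fun hC r (fun r x y => r ∈ meets (F x y))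
    (fun _ _ _ _ h hr => down_meets h hr) (IsFun_tot F r hF)
  refine ⟨r', hr', mem_fex.2 fun r1 hr1 => ⟨r1, le_rfl, g f, fun x y => ⟨?_, ?_⟩⟩⟩
  · refine mem_fimp.2 fun r2 hr2 h2 => ⟨r2, le_rfl, ?_⟩
    have h3 := IsFun_fun F r hF r2 (hr2.trans (hr1.trans hr')) x _ _ (down_meets (hf x) (hr2.trans hr1)) h2
    exact meets_cst.2 ⟨f, rfl, h3⟩
  · refine mem_fimp.2 fun r2 hr2 h2 => ⟨r2, le_rfl, ?_⟩
    obtain ⟨f', hf', h3⟩ := meets_cst.1 h2
    have h4 := g.injective hf'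
    subst h4
    subst h3
    exact down_meets (hf x) (hr2.trans hr1)

theorem arrow_M (hθ : (ℵ₁ : Cardinal.{0}) < Q.θ) (p : Cond Q) :
    p ∈ Arrow (Cond Q) Q.M (ℵ₁ : Cardinal.{0}).ord.ToType := by
  intro c q hq hq'
  have hpow : Q.c ^ (ℵ₀ : Cardinal.{0}) ≤ Q.c := Q.hc _ ((Cardinal.aleph0_lt_aleph_one).trans hθ)
  have hno : ∀ J : Q.M → Cond Q → Prop, (∀ a q r, J a q → r ≤ q → J a r) →
      (∀ a b, a < b → ∀ q' ≤ q, J a q' → J b q' → ¬ q' ∈ meets (c a b)) →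
      ∀ q' ≤ q, ∃ r ≤ q', ∃ β, ∀ a, ∀ r' ≤ r, J a r' → a < β := by
    intro J hJ hind q' hq1
    by_contra hcon
    push Not at hcon
    refine hq'.1 q' hq1 (mem_fex.2 fun q2 hq2 => ⟨q2, le_rfl, fun x => {r | J x r}, ?_, ?_⟩)
    · intro a
      refine not_fex fun r hr F hF => ?_
      obtain ⟨s, h, β, hβ⟩ := reg r (T := Iio a) (Q.hMs a) (fun r x m => r ∈ meets (F x m))
        (fun _ _ _ _ h hr => down_meets h hr) (IsFun_fun F r hF.1)
      have hle : r.lower s h ≤ r := ⟨h, le_rfl⟩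
      obtain ⟨y, r1, hr1, hJy, hβy⟩ := hcon (r.lower s h) (hle.trans (hr.trans hq2)) β
      obtain ⟨r2, hr2, h2⟩ := mem_fimp.1 (hF.2 y) r1 (hr1.trans hle)
        (meets_of_mem (N := {r | J y r}) (fun q hq r hr => hJ y q r hq hr) hJy)
      obtain ⟨r3, hr3, x, hx⟩ := mem_fex.1 h2 r2 le_rfl
      exact absurd (hβ r3 (hr3.trans (hr2.trans hr1)) x y hx) (not_lt.2 hβy)
    · intro x y
      refine mem_fimp.2 fun r hr h => ⟨r, le_rfl, ?_⟩
      obtain ⟨hxy, hx, hy⟩ := h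
      intro r1 hr1 hc1
      obtain ⟨r2, hr2, t, ht, hrt⟩ := hx r1 hr1
      obtain ⟨r3, hr3, t', ht', hrt'⟩ := hy r2 (hr2.trans hr1)
      exact hind x y hxy r3 ((hr3.trans (hr2.trans hr1)).trans (hr.trans (hq2.trans hq1)))
        (hJ x t r3 ht (hr3.trans hrt)) (hJ y t' r3 ht' hrt') (down_meets hc1 (hr3.trans hr2))
  obtain ⟨r, hr, a, ha, hac⟩ := arrow_comb hθ hpow q (fun x y r => r ∈ meets (c x y))
    (fun _ _ _ _ h hr => down_meets h hr) hno
  refine hq'.2 r hr (mem_fex.2 fun r1 hr1 => ⟨r1, le_rfl, fun x y => {_r | a x = y}, ⟨?_, ?_⟩, ?_⟩)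
  · exact fun x => mem_fex.2 fun r2 hr2 => ⟨r2, le_rfl, a x, meets_cst.2 rfl⟩
  · exact fun x y y' => mem_fimp.2 fun r2 hr2 h => ⟨r2, le_rfl, (meets_cst.1 h.1).symm.trans (meets_cst.1 h.2)⟩
  · intro x y u v
    refine mem_fimp.2 fun r2 hr2 h => ⟨r2, le_rfl, ?_⟩
    obtain ⟨hxy, hxu, hyv⟩ := h
    have h1 : a x = u := meets_cst.1 hxu
    have h2 : a y = v := meets_cst.1 hyv
    subst h1
    subst h2
    refine ⟨fun h => hxy (ha.injective h), mem_fimp.2 fun r3 hr3 h3 => ⟨r3, le_rfl, ?_⟩⟩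
    exact down_meets (hac x y (ha.lt_iff_lt.1 h3)) (hr3.trans (hr2.trans hr1))

/-- The level map. -/
theorem exists_lev (c κ : Cardinal.{0}) (hc : ℵ₀ ≤ c) (hκ : c < κ) (hcof : κ.ord.cof = Order.succ c) :
    ∃ (lev : κ.ord.ToType → (Order.succ c).ord.ToType) (f : (Order.succ c).ord.ToType → κ.ord.ToType),
      (∀ a b, lev a < lev b → a < b) ∧ (∀ i, #{a | lev a < i} < κ) ∧ StrictMono f ∧ ∀ y, ∃ x, y ≤ f x := by
  have hκ0 : ℵ₀ ≤ κ := hc.trans hκ.le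
  haveI : NoMaxOrder κ.ord.ToType := Cardinal.noMaxOrder hκ0
  obtain ⟨s, hs, hs'⟩ := Ordinal.exists_ord_cof_eq κ.ord.ToType
  rw [Ordinal.cof_toType, hcof] at hs'
  have e : Nonempty ((Order.succ c).ord.ToType ≃o s) := by
    have h1 : Ordinal.type (fun x y : (Order.succ c).ord.ToType => x < y) =
        Ordinal.type (fun x y : s => x < y) := by
      rw [hs']
      exact Ordinal.type_toType _
    obtain ⟨g⟩ := Ordinal.type_eq.1 h1
    exact ⟨OrderIso.ofRelIsoLT g⟩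
  obtain ⟨e⟩ := e
  let f : (Order.succ c).ord.ToType → κ.ord.ToType := fun x => (e x).1
  have hf : StrictMono f := fun x y hxy => e.strictMono hxy
  have hcofin : ∀ y, ∃ x, y ≤ f x := by
    intro y
    obtain ⟨z, hz, hyz⟩ := hs y
    refine ⟨e.symm ⟨z, hz⟩, ?_⟩
    simp only [f, OrderIso.apply_symm_apply]
    exact hyz
  have hex : ∀ a : κ.ord.ToType, ({x | a < f x} : Set (Order.succ c).ord.ToType).Nonempty := by
    intro a
    obtain ⟨b, hb⟩ := exists_gt a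
    obtain ⟨x, hx⟩ := hcofin b
    exact ⟨x, lt_of_lt_of_le hb hx⟩
  let lev : κ.ord.ToType → (Order.succ c).ord.ToType := fun a => wellFounded_lt.min _ (hex a)
  have hlev1 : ∀ a, a < f (lev a) := fun a => wellFounded_lt.min_mem _ (hex a)
  have hlev2 : ∀ a x, a < f x → lev a ≤ x := fun a x hx =>
    not_lt.1 (wellFounded_lt.not_lt_min {x | a < f x} hx)
  refine ⟨lev, f, ?_, ?_, hf, hcofin⟩
  · intro a b hab
    have h1 : ¬ b < f (lev a) := fun h => absurd (hlev2 b _ h) (not_le.2 hab)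
    exact lt_of_lt_of_le (hlev1 a) (not_lt.1 h1)
  · intro i
    refine lt_of_le_of_lt (Cardinal.mk_le_mk_of_subset (?_ : {a | lev a < i} ⊆ Iio (f i))) ?_
    · intro a ha
      exact (hlev1 a).trans (hf ha)
    · exact Cardinal.mk_Iio_toType_ord_lt _

/-- Singular strong limit cardinals of cofinality `c⁺`. -/
theorem exists_kappa (c : Cardinal.{0}) (hc : ℵ₀ ≤ c) : ∃ κ : Cardinal.{0}, (2 : Cardinal.{0}) ^ c < κ ∧
    κ.ord.cof = Order.succ c ∧ ∀ ρ < κ, (2 : Cardinal.{0}) ^ ρ < κ := by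
  have hlim : Order.IsSuccLimit (Order.succ c).ord :=
    Cardinal.isSuccLimit_ord (hc.trans (Order.le_succ c))
  have hstrong := (Cardinal.isStrongLimit_beth (o := (Order.succ c).ord)).2 hlim.isSuccPrelimit
  have hs : ∀ ρ < Cardinal.beth (Order.succ c).ord, (2 : Cardinal.{0}) ^ ρ < Cardinal.beth (Order.succ c).ord :=
    fun ρ hρ => hstrong.isStrongPrelimit hρ
  refine ⟨Cardinal.beth (Order.succ c).ord, ?_, ?_, hs⟩
  · refine hs c (lt_of_le_of_lt (Cardinal.le_beth_ord c) ?_)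
    exact Cardinal.beth_lt_beth.2 (Cardinal.ord_lt_ord.2 (Order.lt_succ c))
  · have h1 := Ordinal.cof_map_of_isNormal (Cardinal.isNormal_ord.comp Cardinal.isNormal_beth) hlim
    simp only [Function.comp_apply] at h1
    rw [h1]
    exact (Cardinal.isRegular_succ hc).cof_ord

/-- The cofinality of `ℵ_{ω₂}` is `ℵ₂`. -/
theorem cof_aleph_omega_two : (Cardinal.aleph (Cardinal.aleph.{0} 2).ord).ord.cof = Order.succ (Cardinal.aleph.{0} 1) ∧
    Cardinal.aleph.{0} 2 < Cardinal.aleph (Cardinal.aleph.{0} 2).ord := by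
  have h2 : Cardinal.aleph.{0} 2 = Order.succ (Cardinal.aleph.{0} 1) := by
    rw [Cardinal.succ_aleph]
    norm_num
  have hlim : Order.IsSuccLimit (Cardinal.aleph.{0} 2).ord :=
    Cardinal.isSuccLimit_ord (Cardinal.aleph0_le_aleph _)
  constructor
  · have h1 := Ordinal.cof_map_of_isNormal Ordinal.isNormal_omega hlim
    rw [Cardinal.ord_aleph, h1, h2]
    exact (Cardinal.isRegular_succ (Cardinal.aleph0_le_aleph _)).cof_ord
  · rw [Cardinal.aleph_lt_aleph, Cardinal.ord_aleph]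
    have h3 : (2 : Ordinal) < Ordinal.omega0 := by
      exact_mod_cast Ordinal.natCast_lt_omega0 2
    exact lt_of_lt_of_le h3 (Ordinal.omega0_le_omega _)

/-! ### The parameters -/

/-- The parameters obtained from `θ ≤ c` and `κ`. -/
noncomputable def mkPar (θ c κ : Cardinal.{0}) (hθ : ℵ₀ ≤ θ) (hθr : θ.IsRegular) (hθc : θ ≤ c)
    (hc : ∀ σ < θ, c ^ σ ≤ c) (hκ : (2 : Cardinal.{0}) ^ c < κ)
    (lev : κ.ord.ToType → (Order.succ c).ord.ToType) (hlev : ∀ i, #{a | lev a < i} < κ) : Par where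
  K := κ.ord.ToType
  M := (Order.succ c).ord.ToType
  lev := lev
  θ := θ
  c := c
  hθ := hθ
  hθr := hθr
  hθc := hθc
  hc := hc
  hM := by rw [Cardinal.mk_toType, Cardinal.card_ord]
  hMs i := Order.lt_succ_iff.1 (Cardinal.mk_Iio_toType_ord_lt i)
  hK := by rwa [Cardinal.mk_toType, Cardinal.card_ord]
  hlev i := by
    rw [Cardinal.mk_toType, Cardinal.card_ord]
    exact hlev i

theorem hA_ord (κ : Cardinal.{0}) : ∀ B : Set κ.ord.ToType, #B < #κ.ord.ToType →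
    ∃ a : κ.ord.ToType, #B ≤ #(Iio a) := by
  intro B hB
  rw [Cardinal.mk_toType, Cardinal.card_ord] at hB
  have h : (#B).ord < Ordinal.type (α := κ.ord.ToType) (· < ·) := by
    rw [Ordinal.type_toType]; exact Cardinal.ord_lt_ord.2 hB
  refine ⟨Ordinal.enum (α := κ.ord.ToType) (· < ·) ⟨(#B).ord, h⟩, ?_⟩
  have h2 := Ordinal.typein_enum (α := κ.ord.ToType) (· < ·) h
  have h3 := congrArg Ordinal.card h2
  rw [Cardinal.card_ord] at h3
  exact h3.symm.le.trans (le_of_eq rfl)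

theorem hI_ord (κ : Cardinal.{0}) (a : κ.ord.ToType) : #(Iio a) < #κ.ord.ToType := by
  rw [Cardinal.mk_toType, Cardinal.card_ord]
  exact Cardinal.mk_Iio_toType_ord_lt a

theorem seg (c κ : Cardinal.{0}) (h : c < κ) : ∃ a : κ.ord.ToType, Nonempty (c.ord.ToType ≃o Iio a) := by
  have h1 : Ordinal.type (α := c.ord.ToType) (· < ·) < Ordinal.type (α := κ.ord.ToType) (· < ·) := by
    rw [Ordinal.type_toType, Ordinal.type_toType]
    exact Cardinal.ord_lt_ord.2 h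
  obtain ⟨f⟩ := Ordinal.type_lt_iff.1 h1
  exact ⟨f.top, ⟨OrderIso.ofRelIsoLT (α := c.ord.ToType) (β := Iio f.top) f.subrelIso.symm⟩⟩

theorem exists_par (θ c κ : Cardinal.{0}) (hθ : ℵ₀ ≤ θ) (hθr : θ.IsRegular) (hθc : θ ≤ c)
    (hc : ∀ σ < θ, c ^ σ ≤ c) (hκ : (2 : Cardinal.{0}) ^ c < κ) (hcof : κ.ord.cof = Order.succ c) :
    ∃ (Q : Par) (_ : LinearOrder Q.K) (_ : WellFoundedLT Q.K) (f : Q.M → Q.K),
      Q.θ = θ ∧ Q.c = c ∧ #Q.K = κ ∧ (∀ a b : Q.K, Q.lev a < Q.lev b → a < b) ∧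
      (∀ B : Set Q.K, #B < #Q.K → ∃ a : Q.K, #B ≤ #(Iio a)) ∧ (∀ a : Q.K, #(Iio a) < #Q.K) ∧
      (∃ a : Q.K, Nonempty (Q.M ≃o Iio a)) ∧ StrictMono f ∧ (∀ y, ∃ x, y ≤ f x) ∧
      Ordinal.type (α := Q.K) (· < ·) = κ.ord ∧ Ordinal.type (α := Q.M) (· < ·) = (Order.succ c).ord := by
  have hc0 : ℵ₀ ≤ c := hθ.trans hθc
  have hcκ : c < κ := (Cardinal.cantor c).trans hκ
  obtain ⟨lev, f, hmono, hlev, hf, hcofinal⟩ := exists_lev c κ hc0 hcκ hcof
  have hsc : Order.succ c < κ := (Order.succ_le_of_lt (Cardinal.cantor c)).trans_lt hκ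
  exact ⟨mkPar θ c κ hθ hθr hθc hc hκ lev hlev, (inferInstance : LinearOrder κ.ord.ToType),
    (inferInstance : WellFoundedLT κ.ord.ToType), f, rfl, rfl, (by
      show #κ.ord.ToType = κ
      rw [Cardinal.mk_toType, Cardinal.card_ord]), hmono, hA_ord κ, hI_ord κ, seg _ _ hsc, hf, hcofinal,
    Ordinal.type_toType _, Ordinal.type_toType _⟩

theorem cond_nonempty (Q : Par) : Nonempty (Cond Q) := by
  have : Nonempty Q.M := Cardinal.mk_ne_zero_iff.1 (by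
    rw [Q.hM]; exact (Order.bot_lt_succ Q.c).ne')
  exact ⟨⟨⟨∅, this.some, fun _ _ => this.some, fun _ => this.some, by simp, fun a h => h.elim⟩,
    ⟨∅, fun _ _ => False, by simpa using Cardinal.aleph0_pos.trans_le Q.hθ, fun a b h => h.elim⟩,
    Set.empty_subset _, fun a a' b h => h.elim⟩⟩

theorem aleph_two : Cardinal.aleph.{0} 2 = Order.succ (ℵ₁ : Cardinal.{0}) := by
  rw [Cardinal.succ_aleph]
  congr 1
  exact one_add_one_eq_two.symm

/-- The generic example for `θ = ℵ₂`, `c = 2 ^ ℵ₁`. -/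
theorem main_B : ∃ (K M P : Type) (_ : LinearOrder K) (_ : WellFoundedLT K) (_ : LinearOrder M) (_ : WellFoundedLT M)
    (f : M → K) (_ : Preorder P), Nonempty P ∧ (∃ a : K, Nonempty (M ≃o Iio a)) ∧ StrictMono f ∧ (∀ y, ∃ x, y ≤ f x) ∧
    ∀ p : P,
      p ∈ IsCard P (ℵ₁ : Cardinal.{0}).ord.ToType ∧
      p ∈ IsCard P K ∧ p ∈ IsCard P M ∧ p ∈ IsReg P M ∧
      p ∈ Arrow P M (ℵ₁ : Cardinal.{0}).ord.ToType ∧
      p ∈ PowLT P K (ℵ₁ : Cardinal.{0}).ord.ToType ∧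
      p ∈ fnot (Arrow P K (ℵ₁ : Cardinal.{0}).ord.ToType) := by
  have h01 : (ℵ₀ : Cardinal.{0}) < ℵ₁ := Cardinal.aleph0_lt_aleph_one
  have h12 : (ℵ₁ : Cardinal.{0}) < Cardinal.aleph 2 := by
    rw [aleph_two]; exact Order.lt_succ _
  set c : Cardinal.{0} := (2 : Cardinal.{0}) ^ (ℵ₁ : Cardinal.{0}) with hcdef
  have h1c : (ℵ₁ : Cardinal.{0}) < c := Cardinal.cantor _
  have hc0 : ℵ₀ ≤ c := (h01.trans h1c).le
  have h2c : Cardinal.aleph 2 ≤ c := by
    rw [aleph_two]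
    exact Order.succ_le_of_lt h1c
  have hpow : ∀ σ < Cardinal.aleph.{0} 2, c ^ σ ≤ c := by
    intro σ hσ
    rw [aleph_two] at hσ
    have hσ' : σ ≤ ℵ₁ := Order.lt_succ_iff.1 hσ
    rw [hcdef, ← Cardinal.power_mul]
    apply Cardinal.power_le_power_left two_ne_zero
    calc (ℵ₁ : Cardinal.{0}) * σ ≤ ℵ₁ * ℵ₁ := by gcongr
      _ = ℵ₁ := Cardinal.mul_eq_self h01.le
  have hreg : (Cardinal.aleph.{0} 2).IsRegular := by
    rw [aleph_two]
    exact Cardinal.isRegular_succ h01.le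
  obtain ⟨κ, hκ, hcof, hsl⟩ := exists_kappa c hc0
  obtain ⟨Q, oK, wK, f, hQθ, hQc, hQK, hmono, hA, hI, hseg, hf, hcofinal, -, -⟩ :=
    exists_par (Cardinal.aleph 2) c κ (h01.trans h12).le hreg h2c hpow hκ hcof
  have hC : #(ℵ₁ : Cardinal.{0}).ord.ToType < Q.θ := by
    rw [Cardinal.mk_toType, Cardinal.card_ord, hQθ]; exact h12
  refine ⟨Q.K, Q.M, Cond Q, oK, wK, inferInstance, inferInstance, f, inferInstance, cond_nonempty Q, hseg, hf,
    hcofinal, fun p => ⟨?_, isCard_K hI p, isCard_M p, isReg_M p, arrow_M (hQθ ▸ h12) p, powLT_K hC ?_ p,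
      not_arrow hA hmono (hQθ ▸ h12.le) p⟩⟩
  · exact isCard_small (hI_ord ℵ₁) (fun a => by
      rw [hQθ]; exact (Cardinal.mk_Iio_toType_ord_lt a).trans h12) p
  · intro a
    have h1 : #(Iio a) < κ := hQK ▸ hI a
    have h2 : #((ℵ₁ : Cardinal.{0}).ord.ToType → Iio a) < κ := by
      rw [Cardinal.mk_arrow, Cardinal.lift_id, Cardinal.lift_id, Cardinal.mk_toType, Cardinal.card_ord]
      have h3 : (ℵ₁ : Cardinal.{0}) < κ := (h1c.trans (Cardinal.cantor c)).trans hκ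
      have h4 : max (#(Iio a)) ℵ₁ < κ := max_lt h1 h3
      calc #(Iio a) ^ (ℵ₁ : Cardinal.{0}) ≤ (max (#(Iio a)) ℵ₁) ^ (max (#(Iio a)) ℵ₁) := by
            refine (Cardinal.power_le_power_right (le_max_left _ _)).trans
              (Cardinal.power_le_power_left ?_ (le_max_right _ _))
            exact (lt_of_lt_of_le (Cardinal.aleph0_pos.trans h01) (le_max_right _ _)).ne'
        _ = 2 ^ (max (#(Iio a)) ℵ₁) := Cardinal.power_self_eq (h01.le.trans (le_max_right _ _))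
        _ < κ := hsl _ h4
    obtain ⟨B, hB⟩ : ∃ B : Set Q.K, #B = #((ℵ₁ : Cardinal.{0}).ord.ToType → Iio a) := by
      rw [← Cardinal.le_mk_iff_exists_set]
      rw [hQK]; exact h2.le
    obtain ⟨b, hb⟩ := hA B (by rw [hB, hQK]; exact h2)
    exact ⟨b, hB ▸ hb⟩

theorem not_homT [LinearOrder Q.K] (p : Cond Q) : p ∉ HomT (Gn Q) (WithTop ℕ) := by
  intro hp
  obtain ⟨q, hq, F, hF⟩ := mem_fex.1 hp p le_rfl
  obtain ⟨q', hq', b, hb⟩ := IsFun_tot F q hF.1 q le_rfl ⊤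
  have key : ∀ r ≤ q', ∀ x y a c, x < y → r ∈ meets (F x a) → r ∈ meets (F y c) → ∃ r' ≤ r, r'.x.G a c := by
    intro r hr x y a c hxy hx hy
    obtain ⟨r1, hr1, h1⟩ := mem_fimp.1 (hF.2 x y a c) r (hr.trans hq') ⟨hxy, hx, hy⟩
    obtain ⟨r2, hr2, s, hs, hrs⟩ := h1.2 r1 le_rfl
    exact ⟨r2, hr2.trans hr1, G_mono hrs hs⟩
  refine no_seq q' b (fun r n a => r ∈ meets (F (n : WithTop ℕ) a)) (fun _ _ _ _ h hr => down_meets h hr)
    (fun r hr n => IsFun_tot F q hF.1 r (hr.trans hq') _) ?_ ?_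
  · intro r hr n a a' ha ha'
    exact key r hr n ((n + 1 : ℕ) : WithTop ℕ) a a' (by exact_mod_cast Nat.lt_succ_self n) ha ha'
  · intro r hr n a ha
    exact key r hr n ⊤ a b (WithTop.coe_lt_top n) ha (down_meets hb hr)

theorem not_arrowT [LinearOrder Q.K] (hA : ∀ B : Set Q.K, #B < #Q.K → ∃ a : Q.K, #B ≤ #(Iio a))
    (hmono : ∀ a b : Q.K, Q.lev a < Q.lev b → a < b) (p : Cond Q) :
    p ∈ fnot (ArrowT (Cond Q) Q.K (WithTop ℕ)) := by
  intro q _ hq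
  exact hq (Gn Q) q le_rfl ⟨fun r _ => not_hom0 hA hmono r, fun r _ => not_homT r⟩

theorem ch_holds (hθ : (ℵ₁ : Cardinal.{0}) ≤ Q.θ) (hCH : (2 : Cardinal.{0}) ^ (ℵ₀ : Cardinal.{0}) = ℵ₁) (p : Cond Q) :
    p ∈ CHHolds (Cond Q) := by
  have h1 : #(ℕ → Prop) ≤ #(ℵ₁ : Cardinal.{0}).ord.ToType := by
    rw [Cardinal.mk_toType, Cardinal.card_ord, ← hCH]
    simp
  obtain ⟨g⟩ := (Cardinal.le_def _ _).1 h1
  refine mem_fex.2 fun q hq => ⟨q, le_rfl, fun i n => {_r | ∃ f, g f = i ∧ f n}, fun x => ?_⟩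
  refine mem_fex.2 fun r hr => ?_
  obtain ⟨r', hr', f, hf⟩ := decide_fun (X := ℕ) (Y := Prop) (by
    rw [Cardinal.mk_nat]; exact Cardinal.aleph0_lt_aleph_one.trans_le hθ) r
    (fun r n t => (t ∧ r ∈ meets (x n)) ∨ (¬ t ∧ r ∈ fnot (meets (x n))))
    (by
      rintro q r n t (h | h) hr
      · exact Or.inl ⟨h.1, down_meets h.2 hr⟩
      · exact Or.inr ⟨h.1, fun s hs => h.2 s (hs.trans hr)⟩)
    (by
      intro q hq n
      by_cases h : q ∈ fnot (meets (x n))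
      · exact ⟨q, le_rfl, False, Or.inr ⟨not_false, h⟩⟩
      · simp only [fnot, Set.mem_ofPred_eq, not_forall, not_not] at h
        obtain ⟨s, hs, h⟩ := h
        exact ⟨s, hs, True, Or.inl ⟨trivial, h⟩⟩)
  refine ⟨r', hr', g f, fun n => ⟨?_, ?_⟩⟩
  · refine mem_fimp.2 fun r2 hr2 h2 => ⟨r2, le_rfl, ?_⟩
    rcases hf n with h | h
    · exact meets_cst.2 ⟨f, rfl, h.1⟩
    · exact absurd h2 (h.2 r2 hr2)
  · refine mem_fimp.2 fun r2 hr2 h2 => ⟨r2, le_rfl, ?_⟩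
    obtain ⟨f', hf', h3⟩ := meets_cst.1 h2
    have h4 := g.injective hf'
    subst h4
    rcases hf n with h | h
    · exact down_meets h.2 hr2
    · exact absurd h3 h.1

/-- Preservation of all cardinals when `θ = c = ℵ₁` and `2 ^ ℵ₁ = ℵ₂`. -/
theorem preserved (hθ : Q.θ = ℵ₁) (hc : Q.c = ℵ₁) (h2 : (2 : Cardinal.{0}) ^ (ℵ₁ : Cardinal.{0}) = Cardinal.aleph 2)
    {X Y : Type} (hXY : #X < #Y) (p : Cond Q) :
    p ∈ fnot (fex fun F : X → Y → Set (Cond Q) => fand (IsFun F) (Covers F fun _ => Set.univ)) := by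
  refine not_fex fun q hq F hF => ?_
  rcases lt_or_ge (#X) ℵ₁ with hX | hX
  · obtain ⟨r, hr, f, hf⟩ := decide_fun (hθ ▸ hX) q (fun r x y => r ∈ meets (F x y))
      (fun _ _ _ _ h hr => down_meets h hr) (IsFun_tot F q hF.1)
    have hns : ¬ Function.Surjective f := by
      intro hsurj
      exact absurd (Cardinal.mk_le_of_surjective hsurj) (not_le.2 hXY)
    obtain ⟨y, hy⟩ := not_forall.1 hns
    obtain ⟨r1, hr1, h1⟩ := mem_fimp.1 (hF.2 y) r hr (fun s _ => ⟨s, le_rfl, s, Set.mem_univ _, le_rfl⟩)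
    obtain ⟨r2, hr2, x, hx⟩ := mem_fex.1 h1 r1 le_rfl
    exact hy ⟨x, IsFun_fun F q hF.1 r2 (hr2.trans (hr1.trans hr)) x _ _ (down_meets (hf x) (hr2.trans hr1)) hx⟩
  · rcases lt_or_ge ((2 : Cardinal.{0}) ^ Q.c) (#Y) with hY | hY
    · refine no_onto_big hXY hY q (fun r x y => r ∈ meets (F x y)) (fun _ _ _ _ h hr => down_meets h hr)
        (IsFun_fun F q hF.1) ?_
      intro y r hr
      obtain ⟨r1, hr1, h1⟩ := mem_fimp.1 (hF.2 y) r hr (fun s _ => ⟨s, le_rfl, s, Set.mem_univ _, le_rfl⟩)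
      obtain ⟨r2, hr2, x, hx⟩ := mem_fex.1 h1 r1 le_rfl
      exact ⟨r2, hr2.trans hr1, x, hx⟩
    · rw [hc, h2, aleph_two] at hY
      have hX1 : #X ≤ ℵ₁ := Order.lt_succ_iff.1 (hXY.trans_le hY)
      have hYM : #Q.M ≤ #Y := by
        rw [Q.hM, hc]
        exact Order.succ_le_of_lt (hX.trans_lt hXY)
      obtain ⟨g⟩ := (Cardinal.le_def _ _).1 hYM
      obtain ⟨s, h, β, hβ⟩ := reg q (T := X) (by rw [hc]; exact hX1) (fun r x m => r ∈ meets (F x (g m)))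
        (fun _ _ _ _ h hr => down_meets h hr)
        (fun r hr x m m' h h' => g.injective (IsFun_fun F q hF.1 r hr x _ _ h h'))
      have hle : q.lower s h ≤ q := ⟨h, le_rfl⟩
      obtain ⟨r1, hr1, h1⟩ := mem_fimp.1 (hF.2 (g β)) (q.lower s h) hle
        (fun s _ => ⟨s, le_rfl, s, Set.mem_univ _, le_rfl⟩)
      obtain ⟨r2, hr2, x, hx⟩ := mem_fex.1 h1 r1 le_rfl
      exact absurd (hβ r2 (hr2.trans hr1) x β hx) (lt_irrefl β)

theorem pow_lt_aleph {κ : Cardinal.{0}} (hκdef : κ = Cardinal.aleph (Cardinal.aleph.{0} 2).ord)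
    (h3 : ∀ ξ < (Cardinal.aleph.{0} 2).ord, Cardinal.aleph ξ ^ (ℵ₀ : Cardinal.{0}) < κ)
    (hlt : Cardinal.aleph.{0} 2 < κ) (ρ : Cardinal.{0}) (hρ : ρ < κ) : ρ ^ (ℵ₀ : Cardinal.{0}) < κ := by
  have h0 : ℵ₀ < κ := ((Cardinal.aleph0_le_aleph 2)).trans_lt hlt
  have h1 : max ρ ℵ₀ < κ := max_lt hρ h0
  obtain ⟨ξ, hξ⟩ := Cardinal.mem_range_aleph_iff.2 (le_max_right ρ ℵ₀)
  have h2 : ξ < (Cardinal.aleph.{0} 2).ord := by
    rw [← Cardinal.aleph_lt_aleph, hξ, ← hκdef]; exact h1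
  exact (Cardinal.power_le_power_right (le_max_left ρ ℵ₀)).trans_lt (hξ ▸ h3 ξ h2)

/-- The generic example for `θ = c = ℵ₁`, `κ = ℵ_{ω₂}`. -/
theorem main_A (h1 : (2 : Cardinal.{0}) ^ (ℵ₀ : Cardinal.{0}) = ℵ₁)
    (h2 : (2 : Cardinal.{0}) ^ (ℵ₁ : Cardinal.{0}) = Cardinal.aleph 2)
    (h3 : ∀ ξ < (Cardinal.aleph.{0} 2).ord, Cardinal.aleph ξ ^ (ℵ₀ : Cardinal.{0}) <
      Cardinal.aleph (Cardinal.aleph.{0} 2).ord) :
    ∃ (K P : Type) (_ : LinearOrder K) (_ : WellFoundedLT K) (_ : Preorder P),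
      Ordinal.type (α := K) (· < ·) = (Cardinal.aleph (Cardinal.aleph.{0} 2).ord).ord ∧ Nonempty P ∧ ∀ p : P,
      (∀ X Y : Type, #X < #Y →
        p ∈ fnot (fex fun F : X → Y → Set P => fand (IsFun F) (Covers F fun _ => Set.univ))) ∧
      p ∈ CHHolds P ∧ p ∈ PowLT P K ℕ ∧ p ∈ fnot (Arrow P K (ℵ₁ : Cardinal.{0}).ord.ToType) ∧
      p ∈ fnot (ArrowT P K (WithTop ℕ)) := by
  have h01 : (ℵ₀ : Cardinal.{0}) < ℵ₁ := Cardinal.aleph0_lt_aleph_one
  have hpow : ∀ σ < (ℵ₁ : Cardinal.{0}), (ℵ₁ : Cardinal.{0}) ^ σ ≤ ℵ₁ := by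
    intro σ hσ
    have hσ' : σ ≤ ℵ₀ := Cardinal.lt_aleph_one_iff.1 hσ
    calc (ℵ₁ : Cardinal.{0}) ^ σ ≤ ℵ₁ ^ (ℵ₀ : Cardinal.{0}) :=
          Cardinal.power_le_power_left (Cardinal.aleph0_pos.trans h01).ne' hσ'
      _ = ℵ₁ := by rw [← h1, ← Cardinal.power_mul, Cardinal.aleph0_mul_aleph0]
      _ ≤ ℵ₁ := le_rfl
  obtain ⟨hcof, hlt⟩ := cof_aleph_omega_two
  set κ : Cardinal.{0} := Cardinal.aleph (Cardinal.aleph.{0} 2).ord with hκdef
  obtain ⟨Q, oK, wK, f, hQθ, hQc, hQK, hmono, hA, hI, hseg, hf, hcofinal, htype, -⟩ :=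
    exists_par ℵ₁ ℵ₁ κ h01.le Cardinal.isRegular_aleph_one le_rfl hpow (h2 ▸ hlt) hcof
  refine ⟨Q.K, Cond Q, oK, wK, inferInstance, htype, cond_nonempty Q, fun p => ⟨fun X Y hXY =>
    preserved hQθ hQc h2 hXY p, ch_holds hQθ.ge h1 p, powLT_K ?_ ?_ p, not_arrow hA hmono hQθ.ge p,
      not_arrowT hA hmono p⟩⟩
  · rw [Cardinal.mk_nat, hQθ]; exact h01
  · intro a
    have h4 : #(Iio a) < κ := hQK ▸ hI a
    have h5 : #(ℕ → Iio a) < κ := by
      rw [Cardinal.mk_arrow, Cardinal.lift_id, Cardinal.lift_id, Cardinal.mk_nat]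
      exact pow_lt_aleph hκdef h3 hlt _ h4
    obtain ⟨B, hB⟩ : ∃ B : Set Q.K, #B = #(ℕ → Iio a) := by
      rw [← Cardinal.le_mk_iff_exists_set]
      rw [hQK]; exact h5.le
    obtain ⟨b, hb⟩ := hA B (by rw [hB, hQK]; exact h5)
    exact ⟨b, hB ▸ hb⟩

/-- The generic example for `θ = c = ℵ₀`. -/
theorem main_C : ∃ (K M P : Type) (_ : LinearOrder K) (_ : WellFoundedLT K) (_ : LinearOrder M) (_ : WellFoundedLT M)
    (f : M → K) (_ : Preorder P), Nonempty P ∧ StrictMono f ∧ (∀ y, ∃ x, y ≤ f x) ∧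
    Ordinal.type (α := M) (· < ·) = (ℵ₁ : Cardinal.{0}).ord ∧
    ∀ p : P, p ∈ IsCard P K ∧ p ∈ IsCard P M ∧ p ∈ IsReg P M ∧ p ∈ fnot (ArrowT P K (WithTop ℕ)) := by
  have hpow : ∀ σ < (ℵ₀ : Cardinal.{0}), (ℵ₀ : Cardinal.{0}) ^ σ ≤ ℵ₀ := by
    intro σ hσ
    obtain ⟨n, rfl⟩ := Cardinal.lt_aleph0.1 hσ
    exact Cardinal.power_nat_le le_rfl
  obtain ⟨κ, hκ, hcof, hsl⟩ := exists_kappa ℵ₀ le_rfl
  obtain ⟨Q, oK, wK, f, hQθ, hQc, hQK, hmono, hA, hI, hseg, hf, hcofinal, htype, htM⟩ :=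
    exists_par ℵ₀ ℵ₀ κ le_rfl Cardinal.isRegular_aleph0 le_rfl hpow hκ hcof
  refine ⟨Q.K, Q.M, Cond Q, oK, wK, inferInstance, inferInstance, f, inferInstance, cond_nonempty Q, hf,
    hcofinal, by rw [htM, Cardinal.succ_aleph0], fun p => ⟨isCard_K hI p, isCard_M p, isReg_M p, not_arrowT hA hmono p⟩⟩

end Pool.Agent.Helper292.SP
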